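import Pool.Agent.Lib.MP_1b4d2d_lc.Syntax

/-!
Arithmetisation of formulas and homogenisation of terms.
-/

set_option autoImplicit false

namespace Pool.Agent.Lib.MP_1b4d2d_lc

open Pool.Agent.Shared.PolyTime

/-- Nonnegative terms that vanish for a suitable witness iff `s = t`, resp. `s ≠ t`. -/
def arEq (s t : Tm) (w : ℕ) : Tm × Tm :=
  (sqr (dif s t), sqr (dif (.mul (dif s t) (.var w)) (.cst 1)))

/-- Nonnegative terms that vanish for a suitable witness iff `s < t`, resp. `t ≤ s`. -/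
def arLt (s t : Tm) (w : ℕ) : Tm × Tm :=
  (sqr (dif (.mul (dif t s) (sqr (.var w))) (.cst 1)), sqr (dif (dif s t) (sqr (.var w))))

/-- Arithmetisation of a formula and of its negation. -/
def ar (b : ℕ) : ℕ → Fm → Tm × Tm
  | j, .eq s t => arEq s t (b + (j + s.code.length + t.code.length))
  | j, .lt s t => arLt s t (b + (j + s.code.length + t.code.length))
  | j, .not φ => (ar b j φ).swap
  | j, .and φ ψ => (.add (ar b j φ).1 (ar b (j + φ.code.length) ψ).1,
      .mul (ar b j φ).2 (ar b (j + φ.code.length) ψ).2)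
  | j, .or φ ψ => (.mul (ar b j φ).1 (ar b (j + φ.code.length) ψ).1,
      .add (ar b j φ).2 (ar b (j + φ.code.length) ψ).2)

theorem ar_nonneg (b : ℕ) (ρ : ℕ → ℝ) (φ : Fm) :
    ∀ j, 0 ≤ (ar b j φ).1.eval ρ ∧ 0 ≤ (ar b j φ).2.eval ρ := by
  induction φ with
  | eq s t => intro j; simp only [ar, arEq, eval_sqr]; exact ⟨sq_nonneg _, sq_nonneg _⟩
  | lt s t => intro j; simp only [ar, arLt, eval_sqr]; exact ⟨sq_nonneg _, sq_nonneg _⟩
  | not φ h => intro j; exact ⟨(h j).2, (h j).1⟩
  | and φ ψ h h' => intro j; exact ⟨add_nonneg (h _).1 (h' _).1, mul_nonneg (h _).2 (h' _).2⟩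
  | or φ ψ h h' => intro j; exact ⟨mul_nonneg (h _).1 (h' _).1, add_nonneg (h _).2 (h' _).2⟩

theorem ar_sound (b : ℕ) (ρ : ℕ → ℝ) (φ : Fm) :
    ∀ j, ((ar b j φ).1.eval ρ = 0 → φ.Holds ρ) ∧ ((ar b j φ).2.eval ρ = 0 → ¬ φ.Holds ρ) := by
  induction φ with
  | eq s t =>
    intro j
    simp only [ar, arEq, eval_sqr, eval_dif, Tm.eval, Fm.Holds, sq_eq_zero_iff]
    exact ⟨fun h => by linarith, fun h h' => by rw [h'] at h; simp at h⟩
  | lt s t =>
    intro j
    simp only [ar, arLt, eval_sqr, eval_dif, Tm.eval, Fm.Holds, sq_eq_zero_iff]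
    generalize ρ (b + (j + s.code.length + t.code.length)) = w
    refine ⟨fun h => ?_, fun h h' => by nlinarith [sq_nonneg w]⟩
    by_contra h'
    push Not at h'
    have := mul_nonneg (sub_nonneg.2 h') (sq_nonneg w)
    simp at h
    nlinarith
  | not φ h => intro j; exact ⟨(h j).2, fun e h' => h' ((h j).1 e)⟩
  | and φ ψ h h' =>
    intro j
    have e1 := ar_nonneg b ρ φ j
    have e2 := ar_nonneg b ρ ψ (j + φ.code.length)
    simp only [ar, Tm.eval, Fm.Holds]
    refine ⟨fun e => ⟨(h j).1 (by linarith [e1.1, e2.1]), (h' _).1 (by linarith [e1.1, e2.1])⟩,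
      fun e => ?_⟩
    rcases mul_eq_zero.1 e with e | e
    · exact fun c => (h j).2 e c.1
    · exact fun c => (h' _).2 e c.2
  | or φ ψ h h' =>
    intro j
    have e1 := ar_nonneg b ρ φ j
    have e2 := ar_nonneg b ρ ψ (j + φ.code.length)
    simp only [ar, Tm.eval, Fm.Holds]
    refine ⟨fun e => (mul_eq_zero.1 e).imp (h j).1 (h' _).1, fun e c => ?_⟩
    rcases c with c | c
    · exact (h j).2 (by linarith [e1.2, e2.2]) c
    · exact (h' _).2 (by linarith [e1.2, e2.2]) c

theorem ar_below (b : ℕ) (φ : Fm) (hφ : φ.Below b) : ∀ j,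
    (ar b j φ).1.Below (b + j + φ.code.length) ∧ (ar b j φ).2.Below (b + j + φ.code.length) := by
  induction φ with
  | eq s t =>
    intro j
    have h1 := hφ.1.mono (n := b + j + (Fm.eq s t).code.length) (by omega)
    have h2 := hφ.2.mono (n := b + j + (Fm.eq s t).code.length) (by omega)
    have h3 : b + (j + s.code.length + t.code.length) < b + j + (Fm.eq s t).code.length := by
      simp [Fm.code]; omega
    simp only [ar, arEq, sqr, dif, Tm.Below, h1, h2, h3, and_self]
  | lt s t =>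
    intro j
    have h1 := hφ.1.mono (n := b + j + (Fm.lt s t).code.length) (by omega)
    have h2 := hφ.2.mono (n := b + j + (Fm.lt s t).code.length) (by omega)
    have h3 : b + (j + s.code.length + t.code.length) < b + j + (Fm.lt s t).code.length := by
      simp [Fm.code]; omega
    simp only [ar, arLt, sqr, dif, Tm.Below, h1, h2, h3, and_self]
  | not φ h =>
    intro j
    exact ⟨(h hφ j).2.mono (by simp [Fm.code]), (h hφ j).1.mono (by simp [Fm.code])⟩
  | and φ ψ h h' =>
    intro j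
    exact ⟨⟨(h hφ.1 j).1.mono (by simp [Fm.code]), (h' hφ.2 _).1.mono (by simp [Fm.code]; omega)⟩,
      ⟨(h hφ.1 j).2.mono (by simp [Fm.code]), (h' hφ.2 _).2.mono (by simp [Fm.code]; omega)⟩⟩
  | or φ ψ h h' =>
    intro j
    exact ⟨⟨(h hφ.1 j).1.mono (by simp [Fm.code]), (h' hφ.2 _).1.mono (by simp [Fm.code]; omega)⟩,
      ⟨(h hφ.1 j).2.mono (by simp [Fm.code]), (h' hφ.2 _).2.mono (by simp [Fm.code]; omega)⟩⟩

theorem ar_complete (b : ℕ) (φ : Fm) (hφ : φ.Below b) : ∀ j (ρ : ℕ → ℝ), ∃ ρ' : ℕ → ℝ,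
    (∀ i < b + j, ρ' i = ρ i) ∧ (φ.Holds ρ → (ar b j φ).1.eval ρ' = 0) ∧
      (¬ φ.Holds ρ → (ar b j φ).2.eval ρ' = 0) := by
  have upd : ∀ (ρ : ℕ → ℝ) (w : ℕ) (v : ℝ) (t : Tm), t.Below b → b ≤ w →
      t.eval (Function.update ρ w v) = t.eval ρ := fun ρ w v t ht hw =>
    Tm.eval_congr (fun i hi => Function.update_of_ne (by omega) _ _) ht
  have two : ∀ φ ψ : Fm, φ.Below b → ψ.Below b → (∀ j (ρ : ℕ → ℝ), ∃ ρ' : ℕ → ℝ,
      (∀ i < b + j, ρ' i = ρ i) ∧ (φ.Holds ρ → (ar b j φ).1.eval ρ' = 0) ∧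
        (¬ φ.Holds ρ → (ar b j φ).2.eval ρ' = 0)) → (∀ j (ρ : ℕ → ℝ), ∃ ρ' : ℕ → ℝ,
      (∀ i < b + j, ρ' i = ρ i) ∧ (ψ.Holds ρ → (ar b j ψ).1.eval ρ' = 0) ∧
        (¬ ψ.Holds ρ → (ar b j ψ).2.eval ρ' = 0)) → ∀ j (ρ : ℕ → ℝ), ∃ ρ' : ℕ → ℝ,
      (∀ i < b + j, ρ' i = ρ i) ∧ ((φ.Holds ρ → (ar b j φ).1.eval ρ' = 0) ∧
        (¬ φ.Holds ρ → (ar b j φ).2.eval ρ' = 0)) ∧
        ((ψ.Holds ρ → (ar b (j + φ.code.length) ψ).1.eval ρ' = 0) ∧
        (¬ ψ.Holds ρ → (ar b (j + φ.code.length) ψ).2.eval ρ' = 0)) := by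
    intro φ ψ h1 h2 h h' j ρ
    obtain ⟨ρ1, a1, a2, a3⟩ := h j ρ
    obtain ⟨ρ2, b1, b2, b3⟩ := h' (j + φ.code.length) ρ1
    have e : ψ.Holds ρ1 ↔ ψ.Holds ρ := Fm.holds_congr (fun i hi => a1 i (by omega)) h2
    have c1 := Tm.eval_congr (fun i hi => b1 i (by omega)) (ar_below b φ h1 j).1
    have c2 := Tm.eval_congr (fun i hi => b1 i (by omega)) (ar_below b φ h1 j).2
    rw [e] at b2 b3
    exact ⟨ρ2, fun i hi => (b1 i (by omega)).trans (a1 i hi),
      ⟨fun h => c1.trans (a2 h), fun h => c2.trans (a3 h)⟩, b2, b3⟩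
  induction φ with
  | eq s t =>
    intro j ρ
    refine ⟨Function.update ρ (b + (j + s.code.length + t.code.length)) (s.eval ρ - t.eval ρ)⁻¹,
      fun i hi => Function.update_of_ne (by omega) _ _, ?_⟩
    simp only [ar, arEq, eval_sqr, eval_dif, Tm.eval, Fm.Holds, sq_eq_zero_iff,
      upd _ _ _ _ hφ.1 (Nat.le_add_right _ _), upd _ _ _ _ hφ.2 (Nat.le_add_right _ _),
      Function.update_self]
    exact ⟨fun h => by linarith, fun h => by rw [mul_inv_cancel₀ (sub_ne_zero.2 h)]; simp⟩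
  | lt s t =>
    intro j ρ
    refine ⟨Function.update ρ (b + (j + s.code.length + t.code.length))
      (if s.eval ρ < t.eval ρ then √(t.eval ρ - s.eval ρ)⁻¹ else √(s.eval ρ - t.eval ρ)),
      fun i hi => Function.update_of_ne (by omega) _ _, ?_⟩
    simp only [ar, arLt, eval_sqr, eval_dif, Tm.eval, Fm.Holds, sq_eq_zero_iff,
      upd _ _ _ _ hφ.1 (Nat.le_add_right _ _), upd _ _ _ _ hφ.2 (Nat.le_add_right _ _),
      Function.update_self]
    refine ⟨fun h => ?_, fun h => ?_⟩
    · rw [if_pos h, Real.sq_sqrt (inv_nonneg.2 (by linarith)), mul_inv_cancel₀ (by linarith)]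
      simp
    · rw [if_neg h, Real.sq_sqrt (by linarith [not_lt.1 h])]
      simp
  | not φ h =>
    intro j ρ
    obtain ⟨ρ', h1, h2, h3⟩ := h hφ j ρ
    exact ⟨ρ', h1, h3, fun c => h2 (not_not.1 c)⟩
  | and φ ψ h h' =>
    intro j ρ
    obtain ⟨ρ', h1, ⟨h2, h3⟩, h4, h5⟩ := two φ ψ hφ.1 hφ.2 (h hφ.1) (h' hφ.2) j ρ
    refine ⟨ρ', h1, fun c => ?_, fun c => ?_⟩
    · simp only [ar, Tm.eval, h2 c.1, h4 c.2, add_zero]
    · simp only [ar, Tm.eval]
      by_cases c' : φ.Holds ρ
      · rw [h5 fun c'' => c ⟨c', c''⟩, mul_zero]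
      · rw [h3 c', zero_mul]
  | or φ ψ h h' =>
    intro j ρ
    obtain ⟨ρ', h1, ⟨h2, h3⟩, h4, h5⟩ := two φ ψ hφ.1 hφ.2 (h hφ.1) (h' hφ.2) j ρ
    refine ⟨ρ', h1, fun c => ?_, fun c => ?_⟩
    · simp only [ar, Tm.eval]
      rcases c with c | c
      · rw [h2 c, zero_mul]
      · rw [h4 c, mul_zero]
    · simp only [ar, Tm.eval, h3 fun c' => c (Or.inl c'), h5 fun c' => c (Or.inr c'), add_zero]

/-- Formal degree. -/
def Tm.deg : Tm → ℕ
  | var _ => 1
  | cst _ => 0
  | add s t => max s.deg t.deg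
  | mul s t => s.deg + t.deg

theorem Tm.deg_le (t : Tm) : t.deg ≤ t.code.length := by
  induction t with
  | var i => simp [Tm.deg, Tm.code]
  | cst c => simp [Tm.deg]
  | add s t hs ht => simp [Tm.deg, Tm.code]; omega
  | mul s t hs ht => simp [Tm.deg, Tm.code]; omega

theorem ar_deg (b : ℕ) (φ : Fm) :
    ∀ j, (ar b j φ).1.deg ≤ 4 * φ.code.length ∧ (ar b j φ).2.deg ≤ 4 * φ.code.length := by
  induction φ with
  | eq s t =>
    intro j
    have := s.deg_le
    have := t.deg_le
    simp only [ar, arEq, sqr, dif, Tm.deg, Fm.code, List.length_append, List.length_singleton]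
    omega
  | lt s t =>
    intro j
    have := s.deg_le
    have := t.deg_le
    simp only [ar, arLt, sqr, dif, Tm.deg, Fm.code, List.length_append, List.length_singleton]
    omega
  | not φ h =>
    intro j
    have := h j
    simp only [ar, Fm.code, List.length_append, List.length_singleton, Prod.fst_swap, Prod.snd_swap]
    omega
  | and φ ψ h h' =>
    intro j
    have := h j
    have := h' (j + φ.code.length)
    simp only [ar, Tm.deg, Fm.code, List.length_append, List.length_singleton]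
    omega
  | or φ ψ h h' =>
    intro j
    have := h j
    have := h' (j + φ.code.length)
    simp only [ar, Tm.deg, Fm.code, List.length_append, List.length_singleton]
    omega

/-- The polynomial given by a term. -/
noncomputable def Tm.toPoly {τ : Type} (σ : ℕ → MvPolynomial τ ℝ) : Tm → MvPolynomial τ ℝ
  | var i => σ i
  | cst c => MvPolynomial.C (c : ℝ)
  | add s t => s.toPoly σ + t.toPoly σ
  | mul s t => s.toPoly σ * t.toPoly σ

theorem Tm.eval_toPoly {τ : Type} (σ : ℕ → MvPolynomial τ ℝ) (x : τ → ℝ) (t : Tm) :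
    MvPolynomial.eval x (t.toPoly σ) = t.eval fun i => MvPolynomial.eval x (σ i) := by
  induction t with
  | var i => rfl
  | cst c => simp only [Tm.toPoly, Tm.eval, MvPolynomial.eval_C]
  | add s t hs ht => simp only [Tm.toPoly, Tm.eval, map_add, hs, ht]
  | mul s t hs ht => simp only [Tm.toPoly, Tm.eval, map_mul, hs, ht]

theorem Tm.deg_toPoly {τ : Type} (σ : ℕ → MvPolynomial τ ℝ) (h : ∀ i, (σ i).totalDegree ≤ 1)
    (t : Tm) : (t.toPoly σ).totalDegree ≤ t.deg := by
  induction t with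
  | var i => exact h i
  | cst c => exact (MvPolynomial.totalDegree_C _).le
  | add s t hs ht => exact (MvPolynomial.totalDegree_add _ _).trans (max_le_max hs ht)
  | mul s t hs ht => exact (MvPolynomial.totalDegree_mul _ _).trans (add_le_add hs ht)

/-- One step of the stack program for `ar`. -/
def arStep (b : ℕ) (st : List Tm × List (Tm × Tm)) (k : Tok × ℕ) : List Tm × List (Tm × Tm) :=
  if k.1.1 = 0 then (.var k.1.2.1 :: st.1, st.2)
  else if k.1.1 = 1 then (.cst k.1.2.2 :: st.1, st.2)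
  else if k.1.1 < 6 then lcase st.1 st fun t ts => lcase ts st fun s ts' =>
    if k.1.1 = 2 then (.add s t :: ts', st.2)
    else if k.1.1 = 3 then (.mul s t :: ts', st.2)
    else if k.1.1 = 4 then (ts', arEq s t (b + k.2) :: st.2)
    else (ts', arLt s t (b + k.2) :: st.2)
  else lcase st.2 st fun q fs =>
    if k.1.1 = 6 then (st.1, q.swap :: fs)
    else lcase fs st fun p fs' =>
      if k.1.1 = 7 then (st.1, (.add p.1 q.1, .mul p.2 q.2) :: fs')
      else (st.1, (.mul p.1 q.1, .add p.2 q.2) :: fs')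

theorem arStep_tm (b : ℕ) (t : Tm) :
    ∀ j ts fs, (t.code.zipIdx j).foldl (arStep b) (ts, fs) = (t :: ts, fs) := by
  induction t with
  | var i => intro j ts fs; rfl
  | cst c => intro j ts fs; rfl
  | add s t hs ht =>
    intro j ts fs; simp only [Tm.code, List.zipIdx_append, List.foldl_append, hs, ht]; rfl
  | mul s t hs ht =>
    intro j ts fs; simp only [Tm.code, List.zipIdx_append, List.foldl_append, hs, ht]; rfl

theorem arStep_fm (b : ℕ) (φ : Fm) :
    ∀ j ts fs, (φ.code.zipIdx j).foldl (arStep b) (ts, fs) = (ts, ar b j φ :: fs) := by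
  induction φ with
  | eq s t =>
    intro j ts fs
    simp only [Fm.code, List.zipIdx_append, List.foldl_append, arStep_tm, ar, List.length_append,
      add_assoc]
    rfl
  | lt s t =>
    intro j ts fs
    simp only [Fm.code, List.zipIdx_append, List.foldl_append, arStep_tm, ar, List.length_append,
      add_assoc]
    rfl
  | not φ h => intro j ts fs; simp only [Fm.code, List.zipIdx_append, List.foldl_append, h]; rfl
  | and φ ψ h h' =>
    intro j ts fs; simp only [Fm.code, List.zipIdx_append, List.foldl_append, h, h']; rfl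
  | or φ ψ h h' =>
    intro j ts fs; simp only [Fm.code, List.zipIdx_append, List.foldl_append, h, h']; rfl

/-- Potential of a list of pairs. -/
def pot (fs : List (Tm × Tm)) : ℕ := (fs.map fun p => sz p.1 + sz p.2 + 1).sum

theorem sz_le_pot (fs : List (Tm × Tm)) : sz fs ≤ 4 * pot fs := by
  induction fs with
  | nil => simp
  | cons p fs ih => simp only [pot, sz_cons, sz_prod p, List.map_cons, List.sum_cons] at *; omega

@[fun_prop] theorem pt_ar {α : Type} [N487b59b3 α] {b : α → ℕ} {f : α → Fm} (hb : PT b)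
    (hf : PT f) : PT (fun a => ar (b a) 0 (f a)) := by
  have h := foldl_pot (f := fun a => arStep (b a)) (l := fun a => (f a).code.zipIdx) ([], [])
    (by unfold arStep arEq arLt; fun_prop) (by fun_prop) (fun st => 2 * sz st.1 + pot st.2)
    (fun _ => 0) (g := fun a => 32 * (sz (b a) + sz ((f a).code.zipIdx)) + 1000) (by fun_prop)
    ?_ ?_ ?_ (by simp [pot]) rfl
  · refine (h.snd.headD (PT.const (Tm.cst 0, Tm.cst 0))).of_eq fun a => ?_
    rw [arStep_fm]; rfl
  · rintro a ⟨ts, fs⟩ ⟨⟨k, i, c⟩, j⟩ hx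
    have h1 := sz_mem hx
    have h2 := sz_add_le (b a) j
    simp only [sz_pair] at h1
    unfold arStep
    split_ifs <;> rcases ts with _ | ⟨t, _ | ⟨s, ts⟩⟩ <;> rcases fs with _ | ⟨q, _ | ⟨p, fs⟩⟩ <;>
      simp [pot, arEq, arLt, sqr, dif, sz_int1, sz_intm1] <;> omega
  · intro a s x _; omega
  · rintro ⟨ts, fs⟩
    have := sz_le_pot fs
    simp only [sz_pair]
    omega

/-- Numerator and denominator after replacing `x_i` by `x_i / x_s` for `lo ≤ i < hi`. -/
def hom (lo hi s : ℕ) : Tm → Tm × Tm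
  | .var i => (.var i, if lo ≤ i then (if i < hi then .var s else .cst 1) else .cst 1)
  | .cst c => (.cst c, .cst 1)
  | .add a b => (.add (.mul (hom lo hi s a).1 (hom lo hi s b).2)
      (.mul (hom lo hi s b).1 (hom lo hi s a).2), .mul (hom lo hi s a).2 (hom lo hi s b).2)
  | .mul a b => (.mul (hom lo hi s a).1 (hom lo hi s b).1, .mul (hom lo hi s a).2 (hom lo hi s b).2)

theorem hom_spec (lo hi s : ℕ) (ρ : ℕ → ℝ) (hs : 0 < ρ s) (t : Tm) :
    0 < (hom lo hi s t).2.eval ρ ∧ (hom lo hi s t).1.eval ρ =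
      (t.eval fun i => if lo ≤ i ∧ i < hi then ρ i / ρ s else ρ i) * (hom lo hi s t).2.eval ρ := by
  induction t with
  | var i =>
    by_cases h1 : lo ≤ i <;> by_cases h2 : i < hi <;> simp [hom, Tm.eval, h1, h2, hs]
    field_simp
  | cst c => simp [hom, Tm.eval]
  | add a b ha hb =>
    simp only [hom, Tm.eval]
    exact ⟨mul_pos ha.1 hb.1, by rw [ha.2, hb.2]; ring⟩
  | mul a b ha hb =>
    simp only [hom, Tm.eval]
    exact ⟨mul_pos ha.1 hb.1, by rw [ha.2, hb.2]; ring⟩

/-- One step of the stack program for `hom`. -/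
def homStep (lo hi s : ℕ) (st : List (Tm × Tm)) (k : Tok) : List (Tm × Tm) :=
  if k.1 = 0 then
    (.var k.2.1, if lo ≤ k.2.1 then (if k.2.1 < hi then .var s else .cst 1) else .cst 1) :: st
  else if k.1 = 1 then (.cst k.2.2, .cst 1) :: st
  else lcase st st fun q r => lcase r st fun p r' =>
    if k.1 = 2 then (.add (.mul p.1 q.2) (.mul q.1 p.2), .mul p.2 q.2) :: r'
    else (.mul p.1 q.1, .mul p.2 q.2) :: r'

theorem homStep_tm (lo hi s : ℕ) (t : Tm) :
    ∀ st, t.code.foldl (homStep lo hi s) st = hom lo hi s t :: st := by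
  induction t with
  | var i => intro st; rfl
  | cst c => intro st; rfl
  | add s t hs ht => intro st; simp only [Tm.code, List.foldl_append, hs, ht]; rfl
  | mul s t hs ht => intro st; simp only [Tm.code, List.foldl_append, hs, ht]; rfl

@[fun_prop] theorem pt_hom {α : Type} [N487b59b3 α] {lo hi s : α → ℕ} {f : α → Tm} (h1 : PT lo)
    (h2 : PT hi) (h3 : PT s) (hf : PT f) : PT (fun a => hom (lo a) (hi a) (s a) (f a)) := by
  have h := foldl_pot (f := fun a => homStep (lo a) (hi a) (s a)) (l := fun a => (f a).code) []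
    (by unfold homStep; fun_prop) (by fun_prop) (fun st => (st.map fun p => sz p.2 + 1).sum)
    (fun st => (st.map fun p => sz p.1).sum)
    (g := fun a => 4 * (sz (s a) + sz ((f a).code)) + 100) (by fun_prop) ?_ ?_ ?_ rfl rfl
  · refine (h.headD (PT.const (Tm.cst 0, Tm.cst 0))).of_eq fun a => ?_
    rw [homStep_tm]; rfl
  · rintro a st ⟨k, i, c⟩ hx
    unfold homStep
    split_ifs <;> rcases st with _ | ⟨q, _ | ⟨p, st⟩⟩ <;> simp [sz_int1] <;> omega
  · rintro a st ⟨k, i, c⟩ hx
    have h1 := sz_mem hx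
    simp only [sz_pair] at h1
    unfold homStep
    split_ifs <;> rcases st with _ | ⟨q, _ | ⟨p, st⟩⟩ <;> simp <;> omega
  · intro st
    induction st with
    | nil => simp
    | cons p fs ih => simp only [sz_cons, sz_prod p, List.map_cons, List.sum_cons] at *; omega

end Pool.Agent.Lib.MP_1b4d2d_lc
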