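import Pool.Prelude.Def_H_3587d628

/-!
Quantifier-free formulas of the first-order theory of the reals, their bit encoding, the class
`∃∀∃ℝ` and the translated Hausdorff distance problem.
-/

set_option autoImplicit false

namespace Pool.Agent.Lib.MP_1b4d2d_lc

/-- Polynomial expressions with integer coefficients in the variables `x_0, x_1, ...`. -/
inductive Tm where
  | var (i : ℕ)
  | cst (c : ℤ)
  | add (s t : Tm)
  | mul (s t : Tm)

/-- Boolean combinations of polynomial equations and inequalities. -/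
inductive Fm where
  | eq (s t : Tm)
  | lt (s t : Tm)
  | not (φ : Fm)
  | and (φ ψ : Fm)
  | or (φ ψ : Fm)

/-- Value of a polynomial expression. -/
noncomputable def Tm.eval (ρ : ℕ → ℝ) : Tm → ℝ
  | var i => ρ i
  | cst c => c
  | add s t => s.eval ρ + t.eval ρ
  | mul s t => s.eval ρ * t.eval ρ

/-- Truth of a formula. -/
def Fm.Holds (ρ : ℕ → ℝ) : Fm → Prop
  | eq s t => s.eval ρ = t.eval ρ
  | lt s t => s.eval ρ < t.eval ρ
  | not φ => ¬ φ.Holds ρ
  | and φ ψ => φ.Holds ρ ∧ ψ.Holds ρ
  | or φ ψ => φ.Holds ρ ∨ ψ.Holds ρ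

/-- All variables have index below `n`. -/
def Tm.Below (n : ℕ) : Tm → Prop
  | var i => i < n
  | cst _ => True
  | add s t => s.Below n ∧ t.Below n
  | mul s t => s.Below n ∧ t.Below n

/-- All variables have index below `n`. -/
def Fm.Below (n : ℕ) : Fm → Prop
  | eq s t => s.Below n ∧ t.Below n
  | lt s t => s.Below n ∧ t.Below n
  | not φ => φ.Below n
  | and φ ψ => φ.Below n ∧ ψ.Below n
  | or φ ψ => φ.Below n ∧ ψ.Below n

/-- Symbols: kind, variable index, integer constant. -/
abbrev Tok := ℕ × ℕ × ℤ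

/-- Reverse Polish code of a term. -/
def Tm.code : Tm → List Tok
  | var i => [(0, i, 0)]
  | cst c => [(1, 0, c)]
  | add s t => s.code ++ t.code ++ [(2, 0, 0)]
  | mul s t => s.code ++ t.code ++ [(3, 0, 0)]

/-- Reverse Polish code of a formula. -/
def Fm.code : Fm → List Tok
  | eq s t => s.code ++ t.code ++ [(4, 0, 0)]
  | lt s t => s.code ++ t.code ++ [(5, 0, 0)]
  | not φ => φ.code ++ [(6, 0, 0)]
  | and φ ψ => φ.code ++ ψ.code ++ [(7, 0, 0)]
  | or φ ψ => φ.code ++ ψ.code ++ [(8, 0, 0)]

/-- One step of the stack parser for reverse Polish codes. -/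
def parseStep : List Tm × List Fm → Tok → List Tm × List Fm
  | (ts, fs), (0, i, _) => (.var i :: ts, fs)
  | (ts, fs), (1, _, c) => (.cst c :: ts, fs)
  | (t :: s :: ts, fs), (2, _) => (.add s t :: ts, fs)
  | (t :: s :: ts, fs), (3, _) => (.mul s t :: ts, fs)
  | (t :: s :: ts, fs), (4, _) => (ts, .eq s t :: fs)
  | (t :: s :: ts, fs), (5, _) => (ts, .lt s t :: fs)
  | (ts, φ :: fs), (6, _) => (ts, .not φ :: fs)
  | (ts, ψ :: φ :: fs), (7, _) => (ts, .and φ ψ :: fs)
  | (ts, ψ :: φ :: fs), (8, _) => (ts, .or φ ψ :: fs)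
  | st, _ => st

theorem parse_tm (t : Tm) : ∀ ts fs, t.code.foldl parseStep (ts, fs) = (t :: ts, fs) := by
  induction t with
  | var i => intro ts fs; rfl
  | cst c => intro ts fs; rfl
  | add s t hs ht => intro ts fs; simp only [Tm.code, List.foldl_append, hs, ht]; rfl
  | mul s t hs ht => intro ts fs; simp only [Tm.code, List.foldl_append, hs, ht]; rfl

theorem parse_fm (φ : Fm) : ∀ ts fs, φ.code.foldl parseStep (ts, fs) = (ts, φ :: fs) := by
  induction φ with
  | eq s t => intro ts fs; simp only [Fm.code, List.foldl_append, parse_tm]; rfl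
  | lt s t => intro ts fs; simp only [Fm.code, List.foldl_append, parse_tm]; rfl
  | not φ h => intro ts fs; simp only [Fm.code, List.foldl_append, h]; cases ts <;> rfl
  | and φ ψ h h' => intro ts fs; simp only [Fm.code, List.foldl_append, h, h']; cases ts <;> rfl
  | or φ ψ h h' => intro ts fs; simp only [Fm.code, List.foldl_append, h, h']; cases ts <;> rfl

/-- A formula is written as the list of its symbols, numbers in binary. -/
instance encFm : N487b59b3 Fm :=
  N487b59b3.ofLeftInverse Fm.code (fun l => (l.foldl parseStep ([], [])).2.head?)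
    (fun φ => by rw [parse_fm]; rfl)

/-- A vector read as an assignment: variables of index at least `n` get the value `0`. -/
noncomputable def ext {n : ℕ} (v : Fin n → ℝ) (i : ℕ) : ℝ := if h : i < n then v ⟨i, h⟩ else 0

/-- A sentence: sizes of the three blocks of variables (lengths of the lists) and the matrix. -/
abbrev Sentence := List Bool × List Bool × List Bool × Fm

/-- Truth of the sentence `∃ x ∀ y ∃ z, φ (x, y, z)`. -/
def EAE (S : Sentence) : Prop :=
  ∃ x : Fin S.1.length → ℝ, ∀ y : Fin S.2.1.length → ℝ, ∃ z : Fin S.2.2.1.length → ℝ,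
    S.2.2.2.Holds (ext (Fin.append (Fin.append x y) z))

/-- The semialgebraic subset of Euclidean `n`-space defined by `φ`. -/
def Fm.set (φ : Fm) (n : ℕ) : Set (EuclideanSpace ℝ (Fin n)) := {p | φ.Holds (ext p.ofLp)}

/-- An input: dimension `n` (length of the list), formulas for `A` and `B`, and `d`. -/
abbrev Inst := List Bool × Fm × Fm × ℚ

/-- Both formulas only use the variables `x_0, ..., x_(n-1)`. -/
def Inst.WellFormed (I : Inst) : Prop := I.2.1.Below I.1.length ∧ I.2.2.1.Below I.1.length

/-- Translated Hausdorff distance: some translate of `A` has Hausdorff distance at most `d`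
from `B`. -/
def THD (I : Inst) : Prop :=
  0 ≤ I.2.2.2 ∧ ∃ v : EuclideanSpace ℝ (Fin I.1.length),
    Metric.hausdorffEDist ((fun p => p + v) '' I.2.1.set I.1.length) (I.2.2.1.set I.1.length) ≤
      ENNReal.ofReal (I.2.2.2 : ℝ)

/-- Polynomial-time many-one reducibility. -/
def Reduces {α β : Type} [N487b59b3 α] [N487b59b3 β] (P : α → Prop) (Q : β → Prop) : Prop :=
  ∃ f : α → β, N68a2faeb.IsPolyTime f ∧ ∀ a, P a ↔ Q (f a)

/-- Membership in the class `∃∀∃ℝ`. -/
def InEAER {α : Type} [N487b59b3 α] (P : α → Prop) : Prop := Reduces P EAE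

end Pool.Agent.Lib.MP_1b4d2d_lc
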