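import Pool.Agent.Lib.MP_1b4d2d_lc.Arith

/-!
The formulas produced by the hardness reduction and their meaning.
-/

set_option autoImplicit false

namespace Pool.Agent.Lib.MP_1b4d2d_lc

open Pool.Agent.Shared.PolyTime

/-- Sum of the squares of `len` variables starting at `lo`. -/
def sqT (lo len : ℕ) : Tm := sumTm ((List.range len).map fun i => sqr (.var (lo + i)))

theorem eval_sqT (ρ : ℕ → ℝ) (lo len : ℕ) :
    (sqT lo len).eval ρ = ∑ i ∈ Finset.range len, ρ (lo + i) ^ 2 := by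
  simp [sqT, eval_sumTm, Tm.eval]

/-- The nonnegative polynomial: `G` plus the constraints tying `y` to the cube variables. -/
def Ftm (k m L : ℕ) (G : Tm) : Tm :=
  .add G (sumTm ((List.range m).map fun i =>
    sqr (.mul (.var (L + 2)) (dif (.mul (.var (L + 2)) (.var (k + i))) (.var (L + 3 + i))))))

theorem eval_Ftm (ρ : ℕ → ℝ) (k m L : ℕ) (G : Tm) : (Ftm k m L G).eval ρ = G.eval ρ +
    ∑ i ∈ Finset.range m, (ρ (L + 2) * (ρ (L + 2) * ρ (k + i) - ρ (L + 3 + i))) ^ 2 := by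
  simp [Ftm, eval_sumTm, Tm.eval]

theorem Ftm_congr {ρ ρ' : ℕ → ℝ} {k m L Z : ℕ} {G : Tm} (hG : G.Below Z) (hk : k + m ≤ Z)
    (h1 : ∀ i < Z, ρ i = ρ' i) (h2 : ∀ j ≤ m, ρ (L + 2 + j) = ρ' (L + 2 + j)) :
    (Ftm k m L G).eval ρ = (Ftm k m L G).eval ρ' := by
  rw [eval_Ftm, eval_Ftm, Tm.eval_congr h1 hG]
  congr 1
  refine Finset.sum_congr rfl fun i hi => ?_
  have hi' := Finset.mem_range.1 hi
  have e1 := h2 0 (by omega)
  have e2 := h2 (i + 1) (by omega)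
  rw [show L + 2 + (i + 1) = L + 3 + i by omega] at e2
  rw [add_zero] at e1
  rw [e1, e2, h1 (k + i) (by omega)]

theorem deg_Ftm (k m L : ℕ) (G : Tm) : (Ftm k m L G).deg ≤ G.deg + 6 := by
  have : ∀ l : List ℕ, (sumTm (l.map fun i => sqr (.mul (.var (L + 2))
      (dif (.mul (.var (L + 2)) (.var (k + i))) (.var (L + 3 + i)))))).deg ≤ 6 := fun l => by
    induction l with
    | nil => simp [sumTm, Tm.deg]
    | cons t l ih =>
      simp only [sumTm, List.map_cons, List.foldr_cons, Tm.deg, sqr, dif] at *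
      omega
  have := this (List.range m)
  simp only [Ftm, Tm.deg]
  omega

/-- The cube variables lie in `[-1, 1]` and `0 < c ≤ 1`. -/
def box (m L : ℕ) : Fm :=
  .and (conj ((List.range (m + 1)).map fun j => Fm.le (sqr (.var (L + 2 + j))) (.cst 1)))
    (.and (.lt (.cst 0) (.var (L + 1))) (Fm.le (.var (L + 1)) (.cst 1)))

theorem holds_box (ρ : ℕ → ℝ) (m L : ℕ) : (box m L).Holds ρ ↔
    (∀ j < m + 1, ρ (L + 2 + j) ^ 2 ≤ 1) ∧ 0 < ρ (L + 1) ∧ ρ (L + 1) ≤ 1 := by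
  simp [box, Fm.Holds, holds_conj, Tm.eval]

/-- Repeated squaring, homogenised by the variable `s`. -/
def chain (u K s : ℕ) : Fm :=
  conj ((List.range K).map fun j => .eq (.mul (.var (u + (j + 1))) (.var s)) (sqr (.var (u + j))))

theorem holds_chain (ρ : ℕ → ℝ) (u K s : ℕ) : (chain u K s).Holds ρ ↔
    ∀ j < K, ρ (u + (j + 1)) * ρ s = ρ (u + j) ^ 2 := by
  simp [chain, Fm.Holds, holds_conj, Tm.eval]

theorem chain_val {ρ : ℕ → ℝ} {u K s : ℕ} (h : (chain u K s).Holds ρ) (hs : 0 < ρ s) {w : ℝ}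
    (h0 : ρ u = w * ρ s) : ρ (u + K) = w ^ 2 ^ K * ρ s := by
  rw [holds_chain] at h
  have : ∀ j ≤ K, ρ (u + j) = w ^ 2 ^ j * ρ s := fun j hj => by
    induction j with
    | zero => simpa using h0
    | succ j ih =>
      have h1 := h j (by omega)
      rw [ih (by omega)] at h1
      apply mul_right_cancel₀ hs.ne'
      rw [h1, pow_succ 2 j, pow_mul]
      ring
  exact this K le_rfl

/-- First part of the set `A`. -/
def fA0 (m L : ℕ) : Fm :=
  .and (conj ((List.range (L + 1)).map fun i => .eq (.var i) (.cst 0))) (box m L)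

/-- First part of the set `B`. -/
def fB0 (k m nz K1 K2 : ℕ) (F : Tm) : Fm :=
  .and (box m (k + (nz + K1 + K2 + 3)))
  (.and (.eq (sqT k (nz + K1 + K2 + 3)) (.cst 1))
  (.and (.lt (.cst 0) (.var (k + nz + K1 + K2 + 2)))
  (.and (.eq (.mul (.var (k + nz)) (.var (k + nz + K1 + K2 + 2)))
    (.add (sqr (.var (k + nz + K1 + K2 + 2))) (sqT k nz)))
  (.and (chain (k + nz) K1 (k + nz + K1 + K2 + 2))
  (.and (.eq (.var (k + nz + K1 + 1))
    (.mul (.var (k + (nz + K1 + K2 + 3) + 1)) (.var (k + nz + K1 + K2 + 2))))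
  (.and (chain (k + nz + K1 + 1) K2 (k + nz + K1 + K2 + 2))
  (.and (Fm.le (.mul (.var (k + nz + K1 + 1 + K2)) (sqT k nz))
    (.mul (.var (k + (nz + K1 + K2 + 3)))
      (.mul (.var (k + nz + K1 + K2 + 2)) (sqr (.var (k + nz + K1 + K2 + 2))))))
  (Fm.le (.mul (hom k (k + nz) (k + nz + K1 + K2 + 2) F).1 (.var (k + nz + K1)))
    (.mul (.var (k + (nz + K1 + K2 + 3) + 1))
      (.mul (hom k (k + nz) (k + nz + K1 + K2 + 2) F).2 (.var (k + nz + K1 + K2 + 2))))))))))))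

/-- The closed condition, for an assignment. -/
def CoreR (k nz K1 K2 : ℕ) (F : Tm) (ρ : ℕ → ℝ) : Prop :=
  ρ (k + (nz + K1 + K2 + 3) + 1) ^ 2 ^ K2 * ∑ i ∈ Finset.range nz, ρ (k + i) ^ 2 ≤
      ρ (k + (nz + K1 + K2 + 3)) ∧
    F.eval ρ * (1 + ∑ i ∈ Finset.range nz, ρ (k + i) ^ 2) ^ 2 ^ K1 ≤
      ρ (k + (nz + K1 + K2 + 3) + 1)

/-- Division of the middle block by the homogenising variable. -/
noncomputable def dehom (k nz s : ℕ) (ρ : ℕ → ℝ) : ℕ → ℝ :=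
  fun i => if k ≤ i ∧ i < k + nz then ρ i / ρ s else ρ i

theorem dehom_out {k nz s i : ℕ} (ρ : ℕ → ℝ) (h : i < k ∨ k + nz ≤ i) : dehom k nz s ρ i = ρ i :=
  if_neg (by omega)

theorem sum_dehom (k nz s : ℕ) (ρ : ℕ → ℝ) (hs : 0 < ρ s) :
    ∑ i ∈ Finset.range nz, ρ (k + i) ^ 2 =
      (∑ i ∈ Finset.range nz, dehom k nz s ρ (k + i) ^ 2) * ρ s ^ 2 := by
  rw [Finset.sum_mul]
  refine Finset.sum_congr rfl fun i hi => ?_
  have := Finset.mem_range.1 hi
  rw [dehom, if_pos (by omega)]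
  field_simp

theorem fB0_iff {k nz K1 K2 : ℕ} {F : Tm} {ρ : ℕ → ℝ} (hs : 0 < ρ (k + nz + K1 + K2 + 2))
    (hu : ρ (k + nz + K1) = (1 + ∑ i ∈ Finset.range nz,
      dehom k nz (k + nz + K1 + K2 + 2) ρ (k + i) ^ 2) ^ 2 ^ K1 * ρ (k + nz + K1 + K2 + 2))
    (he : ρ (k + nz + K1 + 1 + K2) =
      ρ (k + (nz + K1 + K2 + 3) + 1) ^ 2 ^ K2 * ρ (k + nz + K1 + K2 + 2)) :
    (Fm.and (Fm.le (.mul (.var (k + nz + K1 + 1 + K2)) (sqT k nz))
      (.mul (.var (k + (nz + K1 + K2 + 3)))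
        (.mul (.var (k + nz + K1 + K2 + 2)) (sqr (.var (k + nz + K1 + K2 + 2))))))
    (Fm.le (.mul (hom k (k + nz) (k + nz + K1 + K2 + 2) F).1 (.var (k + nz + K1)))
      (.mul (.var (k + (nz + K1 + K2 + 3) + 1))
        (.mul (hom k (k + nz) (k + nz + K1 + K2 + 2) F).2
          (.var (k + nz + K1 + K2 + 2)))))).Holds ρ ↔
      CoreR k nz K1 K2 F (dehom k nz (k + nz + K1 + K2 + 2) ρ) := by
  obtain ⟨h1, h2⟩ := hom_spec k (k + nz) _ ρ hs F
  simp only [Fm.Holds, holds_le, Tm.eval, eval_sqr, eval_sqT, CoreR]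
  rw [dehom_out ρ (i := k + (nz + K1 + K2 + 3) + 1) (by omega),
    dehom_out ρ (i := k + (nz + K1 + K2 + 3)) (by omega), h2, hu, he, sum_dehom k nz _ ρ hs]
  change _ ∧ F.eval (dehom k nz (k + nz + K1 + K2 + 2) ρ) * _ * _ ≤ _ ↔ _
  generalize ρ (k + nz + K1 + K2 + 2) = s at *
  generalize (hom k (k + nz) (k + nz + K1 + K2 + 2) F).2.eval ρ = dn at *
  refine and_congr ?_ ?_
  · refine Iff.trans (iff_of_eq ?_) (mul_le_mul_iff_left₀ (a := s ^ 3) (by positivity))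
    congr 1 <;> ring
  · refine Iff.trans (iff_of_eq ?_) (mul_le_mul_iff_left₀ (a := dn * s) (by positivity))
    congr 1 <;> ring

theorem core_of_fB0 {k m nz K1 K2 : ℕ} {F : Tm} {ρ : ℕ → ℝ} (h : (fB0 k m nz K1 K2 F).Holds ρ) :
    CoreR k nz K1 K2 F (dehom k nz (k + nz + K1 + K2 + 2) ρ) := by
  obtain ⟨-, -, hs, h1, h2, h3, h4, h5⟩ := h
  have hs' : 0 < ρ (k + nz + K1 + K2 + 2) := by simpa [Fm.Holds, Tm.eval] using hs
  refine (fB0_iff hs' (chain_val h2 hs' ?_) (chain_val h4 hs' h3)).1 h5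
  simp only [Fm.Holds, Tm.eval, eval_sqr, eval_sqT] at h1
  rw [sum_dehom k nz _ ρ hs'] at h1
  apply mul_right_cancel₀ hs'.ne'
  rw [h1]
  ring

theorem fB0_of_core {k m nz K1 K2 : ℕ} {G : Tm} (hG : G.Below (k + nz)) (hm : m ≤ nz)
    {ρ0 : ℕ → ℝ} (hb : (box m (k + (nz + K1 + K2 + 3))).Holds ρ0)
    (h : CoreR k nz K1 K2 (Ftm k m (k + (nz + K1 + K2 + 3)) G) ρ0) :
    ∃ ρ, (fB0 k m nz K1 K2 (Ftm k m (k + (nz + K1 + K2 + 3)) G)).Holds ρ ∧
      ∀ i, i < k ∨ k + (nz + K1 + K2 + 3) ≤ i → ρ i = ρ0 i := by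
  set Q := ∑ i ∈ Finset.range nz, ρ0 (k + i) ^ 2 with hQ
  set c := ρ0 (k + (nz + K1 + K2 + 3) + 1) with hc
  let ρ1 : ℕ → ℝ := fun i => if i < k + nz then ρ0 i
    else if i ≤ k + nz + K1 then (1 + Q) ^ 2 ^ (i - (k + nz))
    else if i ≤ k + nz + K1 + 1 + K2 then c ^ 2 ^ (i - (k + nz + K1 + 1)) else 1
  set R := ∑ i ∈ Finset.range (nz + K1 + K2 + 3), ρ1 (k + i) ^ 2 with hR
  have hR0 : 0 < R := by
    refine lt_of_lt_of_le ?_ (Finset.single_le_sum (f := fun i => ρ1 (k + i) ^ 2)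
      (fun _ _ => sq_nonneg _) (Finset.mem_range.2 (show nz + K1 + K2 + 2 < _ by omega)))
    simp only [ρ1]
    rw [if_neg (by omega), if_neg (by omega), if_neg (by omega)]
    norm_num
  set l := (√R)⁻¹ with hl
  have hl0 : 0 < l := inv_pos.2 (Real.sqrt_pos.2 hR0)
  let ρ : ℕ → ℝ := fun i => if k ≤ i ∧ i < k + (nz + K1 + K2 + 3) then l * ρ1 i else ρ0 i
  have hout : ∀ i, i < k ∨ k + (nz + K1 + K2 + 3) ≤ i → ρ i = ρ0 i := fun i hi => if_neg (by omega)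
  have hs : ρ (k + nz + K1 + K2 + 2) = l := by
    simp only [ρ, ρ1]
    rw [if_pos (by omega), if_neg (by omega), if_neg (by omega), if_neg (by omega), mul_one]
  have hu : ∀ j ≤ K1, ρ (k + nz + j) = (1 + Q) ^ 2 ^ j * l := fun j hj => by
    simp only [ρ, ρ1]
    rw [if_pos (by omega), if_neg (by omega), if_pos (by omega), mul_comm, Nat.add_sub_cancel_left]
  have he : ∀ j ≤ K2, ρ (k + nz + K1 + 1 + j) = c ^ 2 ^ j * l := fun j hj => by
    simp only [ρ, ρ1]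
    rw [if_pos (by omega), if_neg (by omega), if_neg (by omega), if_pos (by omega), mul_comm,
      Nat.add_sub_cancel_left]
  have hd : ∀ i < k + nz, dehom k nz (k + nz + K1 + K2 + 2) ρ i = ρ0 i := fun i hi => by
    by_cases h : k ≤ i
    · rw [dehom, if_pos ⟨h, hi⟩, hs]
      simp only [ρ, ρ1]
      rw [if_pos (by omega), if_pos hi]
      field_simp
    · rw [dehom_out _ (by omega), hout _ (by omega)]
  have hQ' : ∑ i ∈ Finset.range nz, dehom k nz (k + nz + K1 + K2 + 2) ρ (k + i) ^ 2 = Q :=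
    Finset.sum_congr rfl fun i hi => by rw [hd _ (by have := Finset.mem_range.1 hi; omega)]
  have hc' : ρ (k + (nz + K1 + K2 + 3) + 1) = c := hout _ (by omega)
  refine ⟨ρ, ⟨?_, ?_, ?_, ?_, ?_, ?_, ?_, ?_⟩, hout⟩
  · rw [holds_box] at hb ⊢
    rw [hc']
    exact ⟨fun j hj => by rw [hout _ (by omega)]; exact hb.1 j hj, hb.2⟩
  · simp only [Fm.Holds, eval_sqT, Tm.eval]
    rw [Finset.sum_congr rfl (g := fun i => l ^ 2 * ρ1 (k + i) ^ 2) fun i hi => by
      have := Finset.mem_range.1 hi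
      simp only [ρ]
      rw [if_pos (by omega), mul_pow], ← Finset.mul_sum, ← hR, hl, inv_pow, Real.sq_sqrt hR0.le,
      inv_mul_cancel₀ hR0.ne']
    simp
  · simpa [Fm.Holds, Tm.eval, hs] using hl0
  · simp only [Fm.Holds, eval_sqT, Tm.eval, eval_sqr]
    have := hu 0 (by omega)
    rw [add_zero] at this
    rw [sum_dehom k nz (k + nz + K1 + K2 + 2) ρ (by rwa [hs]), hQ', this, hs]
    ring
  · rw [holds_chain]
    intro j hj
    rw [hu _ (by omega), hu _ (by omega), hs, pow_succ 2 j, pow_mul]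
    ring
  · have := he 0 (by omega)
    rw [add_zero] at this
    simp only [Fm.Holds, Tm.eval, this, hc', hs]
    ring
  · rw [holds_chain]
    intro j hj
    rw [he _ (by omega), he _ (by omega), hs, pow_succ 2 j, pow_mul]
    ring
  · refine (fB0_iff (by rwa [hs]) (by rw [hu _ le_rfl, hQ', hs])
      (by rw [he _ le_rfl, hc', hs])).2 ?_
    unfold CoreR at h ⊢
    rw [hQ', dehom_out ρ (i := k + (nz + K1 + K2 + 3) + 1) (by omega),
      dehom_out ρ (i := k + (nz + K1 + K2 + 3)) (by omega), hc', hout _ (Or.inr le_rfl),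
      Ftm_congr hG (by omega) hd fun j _ => by rw [dehom_out _ (by omega), hout _ (by omega)]]
    exact h

section PT

variable {α : Type} [N487b59b3 α]

@[fun_prop] theorem pt_sqT {lo len : α → ℕ} (h1 : PT lo) (h2 : PT len) (h3 : PB len) :
    PT (fun a => sqT (lo a) (len a)) := by unfold sqT; fun_prop

@[fun_prop] theorem pt_Ftm {k m L : α → ℕ} {G : α → Tm} (h1 : PT k) (h2 : PT m) (h3 : PB m)
    (h4 : PT L) (h5 : PT G) : PT (fun a => Ftm (k a) (m a) (L a) (G a)) := by unfold Ftm; fun_prop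

@[fun_prop] theorem pt_box {m L : α → ℕ} (h2 : PT m) (h3 : PB m) (h4 : PT L) :
    PT (fun a => box (m a) (L a)) := by unfold box; fun_prop

@[fun_prop] theorem pt_chain {u K s : α → ℕ} (h1 : PT u) (h2 : PT K) (h3 : PB K) (h4 : PT s) :
    PT (fun a => chain (u a) (K a) (s a)) := by unfold chain; fun_prop

@[fun_prop] theorem pt_fA0 {m L : α → ℕ} (h2 : PT m) (h3 : PB m) (h4 : PT L) (h5 : PB L) :
    PT (fun a => fA0 (m a) (L a)) := by unfold fA0; fun_prop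

@[fun_prop] theorem pt_fB0 {k m nz K1 K2 : α → ℕ} {F : α → Tm} (h1 : PT k) (h2 : PT m) (h3 : PB m)
    (h4 : PT nz) (h5 : PB nz) (h6 : PT K1) (h7 : PB K1) (h8 : PT K2) (h9 : PB K2) (h10 : PT F) :
    PT (fun a => fB0 (k a) (m a) (nz a) (K1 a) (K2 a) (F a)) := by unfold fB0; fun_prop

end PT

end Pool.Agent.Lib.MP_1b4d2d_lc
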