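import Mathlib

/-!
The geometric gadget: spherical cylinders pin down the translation vector.
-/

set_option autoImplicit false

namespace Pool.Agent.Lib.MP_1b4d2d_lc

open Metric

theorem hausdorff_le_iff {X : Type} [PseudoMetricSpace X] {A B : Set X} {d : ℝ} (hd : 0 ≤ d) :
    hausdorffEDist A B ≤ ENNReal.ofReal d ↔
      (∀ x ∈ A, ∀ e > 0, ∃ y ∈ B, dist x y < d + e) ∧
        ∀ y ∈ B, ∀ e > 0, ∃ x ∈ A, dist x y < d + e := by
  constructor
  · intro h
    have hlt : ∀ e > 0, hausdorffEDist A B < ENNReal.ofReal (d + e) := fun e he =>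
      h.trans_lt ((ENNReal.ofReal_lt_ofReal_iff (by linarith)).2 (by linarith))
    refine ⟨fun x hx e he => ?_, fun y hy e he => ?_⟩
    · obtain ⟨y, hy, h'⟩ := exists_edist_lt_of_hausdorffEDist_lt hx (hlt e he)
      exact ⟨y, hy, edist_lt_ofReal.1 h'⟩
    · obtain ⟨x, hx, h'⟩ := exists_edist_lt_of_hausdorffEDist_lt hy
        (hausdorffEDist_comm.trans_lt (hlt e he))
      exact ⟨x, hx, dist_comm y x ▸ edist_lt_ofReal.1 h'⟩
  · rintro ⟨h1, h2⟩
    have key : ∀ (x : X) (S : Set X), (∀ e > 0, ∃ y ∈ S, dist x y < d + e) →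
        infEDist x S ≤ ENNReal.ofReal d := fun x S h => by
      refine ENNReal.le_of_forall_pos_le_add fun e he _ => ?_
      obtain ⟨y, hy, h'⟩ := h e he
      refine (infEDist_le_edist_of_mem hy).trans ?_
      rw [← ENNReal.ofReal_coe_nnreal, ← ENNReal.ofReal_add hd (NNReal.coe_nonneg e)]
      exact (edist_lt_ofReal.2 h').le
    exact hausdorffEDist_le_of_infEDist (fun x hx => key x B (h1 x hx)) fun y hy =>
      key y A fun e he => by
        obtain ⟨x, hx, h'⟩ := h2 y hy e he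
        exact ⟨x, hx, dist_comm x y ▸ h'⟩

variable {D : ℕ} (W : Fin D → Prop) [DecidablePred W]

/-- Projection to the coordinates in `W`. -/
noncomputable def mW (p : EuclideanSpace ℝ (Fin D)) : EuclideanSpace ℝ (Fin D) :=
  WithLp.toLp 2 fun i => if W i then p i else 0

/-- Scaling of the coordinates in `W`. -/
noncomputable def scW (t : ℝ) (p : EuclideanSpace ℝ (Fin D)) : EuclideanSpace ℝ (Fin D) :=
  WithLp.toLp 2 fun i => if W i then t * p i else p i

theorem mW_add (p q : EuclideanSpace ℝ (Fin D)) : mW W (p + q) = mW W p + mW W q := by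
  ext i; by_cases h : W i <;> simp [mW, h]

theorem mW_sub (p q : EuclideanSpace ℝ (Fin D)) : mW W (p - q) = mW W p - mW W q := by
  ext i; by_cases h : W i <;> simp [mW, h]

theorem mW_scW (t : ℝ) (p : EuclideanSpace ℝ (Fin D)) : mW W (scW W t p) = t • mW W p := by
  ext i; by_cases h : W i <;> simp [mW, scW, h]

theorem mW_smul_mW (t : ℝ) (p : EuclideanSpace ℝ (Fin D)) : mW W (t • mW W p) = t • mW W p := by
  ext i; by_cases h : W i <;> simp [mW, h]

theorem dist_scW (t : ℝ) (p : EuclideanSpace ℝ (Fin D)) :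
    dist p (scW W t p) = |1 - t| * ‖mW W p‖ := by
  have : p - scW W t p = (1 - t) • mW W p := by
    ext i; by_cases h : W i <;> simp [mW, scW, h]; ring
  rw [dist_eq_norm, this, norm_smul, Real.norm_eq_abs]

theorem norm_mW_sq (p : EuclideanSpace ℝ (Fin D)) :
    ‖mW W p‖ ^ 2 = ∑ i, if W i then p i ^ 2 else 0 := by
  rw [EuclideanSpace.real_norm_sq_eq]
  exact Finset.sum_congr rfl fun i _ => by by_cases h : W i <;> simp [mW, h]

theorem norm_mW_le (p : EuclideanSpace ℝ (Fin D)) : ‖mW W p‖ ≤ ‖p‖ := by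
  refine le_of_sq_le_sq (by
    rw [norm_mW_sq, EuclideanSpace.real_norm_sq_eq]
    exact Finset.sum_le_sum fun i _ => by split_ifs <;> simp [sq_nonneg]) (norm_nonneg _)

theorem norm_mW_add_le (p : EuclideanSpace ℝ (Fin D)) {i : Fin D} (hi : ¬ W i) :
    ‖mW W p‖ ^ 2 + p i ^ 2 ≤ ‖p‖ ^ 2 := by
  rw [norm_mW_sq, EuclideanSpace.real_norm_sq_eq,
    ← Finset.add_sum_erase _ _ (Finset.mem_univ i),
    ← Finset.add_sum_erase _ (fun j => p j ^ 2) (Finset.mem_univ i), if_neg hi]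
  have : ∑ j ∈ Finset.univ.erase i, (if W j then p j ^ 2 else 0) ≤
      ∑ j ∈ Finset.univ.erase i, p j ^ 2 :=
    Finset.sum_le_sum fun j _ => by split_ifs <;> simp [sq_nonneg]
  linarith

variable {A B A0 B0 : Set (EuclideanSpace ℝ (Fin D))}

theorem geo_yes (hA : ∀ p, p ∈ A ↔ p ∈ A0 ∨ ‖mW W p‖ = 2) (hB : ∀ p, p ∈ B ↔ p ∈ B0 ∨ ‖mW W p‖ = 3)
    (hA0 : ∀ p ∈ A0, mW W p = 0) (hB0 : ∀ p ∈ B0, ‖mW W p‖ = 1) (v : EuclideanSpace ℝ (Fin D))
    (hv : mW W v = 0) (h : ∀ p ∈ A0, ∃ b ∈ B0, ∀ i, ¬ W i → b i = p i + v i) :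
    hausdorffEDist ((fun p => p + v) '' A) B ≤ ENNReal.ofReal 1 := by
  have hA' : ∀ p, ‖mW W p‖ = 2 → p ∈ (fun p => p + v) '' A := fun p hp =>
    ⟨p - v, (hA _).2 (Or.inr (by rw [mW_sub, hv, sub_zero, hp])), by simp⟩
  refine (hausdorff_le_iff zero_le_one).2 ⟨?_, fun y hy e he => ?_⟩
  · rintro _ ⟨p, hp, rfl⟩ e he
    rcases (hA p).1 hp with hp | hp
    · obtain ⟨b, hb, hbi⟩ := h p hp
      refine ⟨b, (hB b).2 (Or.inl hb), ?_⟩
      have h1 : mW W (p + v) = 0 := by rw [mW_add, hA0 p hp, hv, add_zero]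
      have : p + v - b = -mW W b := by
        ext i
        by_cases hi : W i
        · have := congrArg (fun q : EuclideanSpace ℝ (Fin D) => q i) h1
          simp [mW, hi] at this ⊢
          exact this
        · simp [mW, hi, hbi i hi]
      rw [dist_eq_norm, this, norm_neg, hB0 b hb]
      linarith
    · have h1 : ‖mW W (p + v)‖ = 2 := by rw [mW_add, hv, add_zero, hp]
      refine ⟨scW W (3 / 2) (p + v), (hB _).2 (Or.inr ?_), ?_⟩
      · rw [mW_scW, norm_smul, h1]; norm_num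
      · rw [dist_scW, h1, abs_of_neg (by norm_num)]; linarith
  · rcases (hB y).1 hy with hy | hy
    · refine ⟨scW W 2 y, hA' _ ?_, ?_⟩
      · rw [mW_scW, norm_smul, hB0 y hy]; norm_num
      · rw [dist_comm, dist_scW, hB0 y hy, abs_of_neg (by norm_num)]; linarith
    · refine ⟨scW W (2 / 3) y, hA' _ ?_, ?_⟩
      · rw [mW_scW, norm_smul, hy]; norm_num
      · rw [dist_comm, dist_scW, hy, abs_of_pos (by norm_num)]; linarith

theorem geo_no (hA : ∀ p, p ∈ A ↔ p ∈ A0 ∨ ‖mW W p‖ = 2) (hB : ∀ p, p ∈ B ↔ p ∈ B0 ∨ ‖mW W p‖ = 3)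
    (hA0 : ∀ p ∈ A0, mW W p = 0) (hB0 : ∀ p ∈ B0, ‖mW W p‖ = 1) (v : EuclideanSpace ℝ (Fin D))
    (h : hausdorffEDist ((fun p => p + v) '' A) B ≤ ENNReal.ofReal 1) :
    ∀ p ∈ A0, ∀ δ > 0, ∃ b ∈ B0, ∀ i, ¬ W i → |b i - (p i + v i)| < δ := by
  obtain ⟨h1, h2⟩ := (hausdorff_le_iff zero_le_one).1 h
  have hv : mW W v = 0 := by
    by_contra hv
    have hn : 0 < ‖mW W v‖ := norm_pos_iff.2 hv
    set r := ‖mW W v‖ with hr
    obtain ⟨_, ⟨p, hp, rfl⟩, hd⟩ := h2 ((-3 / r) • mW W v) ((hB _).2 (Or.inr (by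
      rw [mW_smul_mW, norm_smul, Real.norm_eq_abs,
        abs_of_neg (div_neg_of_neg_of_pos (by norm_num) hn), ← hr]
      field_simp))) r hn
    have e1 : ‖mW W p‖ ≤ 2 := by
      rcases (hA p).1 hp with hp | hp
      · rw [hA0 p hp]; simp
      · exact hp.le
    have e2 := norm_mW_le W (p + v - (-3 / r) • mW W v)
    rw [mW_sub, mW_add, mW_smul_mW, ← dist_eq_norm (p + v)] at e2
    have e3 : ‖(1 + 3 / r) • mW W v‖ = r + 3 := by
      rw [norm_smul, Real.norm_eq_abs, abs_of_pos (by positivity), ← hr]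
      field_simp
    have e4 : (1 + 3 / r) • mW W v = (mW W p + mW W v - (-3 / r) • mW W v) - mW W p := by
      rw [neg_div, neg_smul, add_smul, one_smul]; abel
    have e5 := norm_sub_le (mW W p + mW W v - (-3 / r) • mW W v) (mW W p)
    rw [← e4, e3] at e5
    have hd' : dist (p + v) ((-3 / r) • mW W v) < 1 + r := hd
    linarith
  intro p hp δ hδ
  have hp' : mW W (p + v) = 0 := by rw [mW_add, hA0 p hp, hv, add_zero]
  have he : 0 < min 1 (δ ^ 2 / 3) := by positivity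
  obtain ⟨b, hb, hd⟩ := h1 (p + v) ⟨p, (hA p).2 (Or.inl hp), rfl⟩ _ he
  have e1 := min_le_left 1 (δ ^ 2 / 3)
  have e2 := min_le_right 1 (δ ^ 2 / 3)
  have e3 : ‖mW W (p + v - b)‖ = ‖mW W b‖ := by rw [mW_sub, hp', zero_sub, norm_neg]
  rw [dist_eq_norm] at hd
  rcases (hB b).1 hb with hb | hb
  · refine ⟨b, hb, fun i hi => ?_⟩
    have e4 := norm_mW_add_le W (p + v - b) hi
    rw [e3, hB0 b hb] at e4
    have e5 : ‖p + v - b‖ ^ 2 < (1 + min 1 (δ ^ 2 / 3)) ^ 2 :=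
      pow_lt_pow_left₀ hd (norm_nonneg _) two_ne_zero
    rw [abs_sub_comm]
    refine abs_lt_of_sq_lt_sq ?_ hδ.le
    have : (p + v - b) i = p i + v i - b i := by simp
    rw [this] at e4
    nlinarith
  · have := norm_mW_le W (p + v - b)
    rw [e3, hb] at this
    linarith

end Pool.Agent.Lib.MP_1b4d2d_lc
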