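import Pool.Agent.Lib.MP_1b4d2d_lc.Loj

/-!
A normal form for `∀ a ∃ z, P (x, a, z) = 0` that is stable under small errors in `x` and `a`.
-/

set_option autoImplicit false

namespace Pool.Agent.Lib.MP_1b4d2d_lc

open MvPolynomial Metric Filter Topology

variable {γ α β : Type} [Fintype γ] [Fintype α] [Fintype β]

/-- The closed condition of the normal form. -/
def Core (P : MvPolynomial ((γ ⊕ α) ⊕ β) ℝ) (N N' : ℕ) (x : γ → ℝ) (C : ℝ) (a : α → ℝ) (c : ℝ)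
    (z : β → ℝ) : Prop :=
  c ^ N' * sq z ≤ C ∧ eval (Sum.elim (Sum.elim x a) z) P * (1 + sq z) ^ N ≤ c

omit [Fintype γ] in
theorem nf_yes (P : MvPolynomial ((γ ⊕ α) ⊕ β) ℝ) {d N N' : ℕ} (hd : P.totalDegree ≤ d)
    (h0 : ∀ p, 0 ≤ eval p P)
    (hN' : B2 (Fintype.card α) (B1 (Fintype.card α + Fintype.card β) (d + 2 * N)) ≤ N')
    (x : γ → ℝ) (hz : ∀ a, ‖a‖ ≤ 1 → ∃ z, eval (Sum.elim (Sum.elim x a) z) P = 0) :
    ∃ C : ℝ, ∀ a, ‖a‖ ≤ 1 → ∀ c : ℝ, 0 < c → c ≤ 1 → ∃ z, Core P N N' x C a c z := by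
  let s : (γ ⊕ α) ⊕ β → MvPolynomial (α ⊕ β) ℝ :=
    Sum.elim (Sum.elim (fun i => C (x i)) fun i => X (.inl i)) fun j => X (.inr j)
  have hs : ∀ i, (s i).totalDegree ≤ 1 := by rintro ((i | i) | j) <;> simp [s]
  let H : MvPolynomial (α ⊕ β) ℝ := aeval s P * (1 + ∑ j : β, X (.inr j) ^ 2) ^ N
  have hev : ∀ a z, eval (Sum.elim a z) H =
      eval (Sum.elim (Sum.elim x a) z) P * (1 + sq z) ^ N := fun a z => by
    have : eval (Sum.elim a z) (aeval s P) = eval (Sum.elim (Sum.elim x a) z) P := by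
      rw [eval_aeval']
      congr 2
      funext i
      rcases i with (i | i) | j <;> simp [s]
    simp only [H, map_mul, this]
    simp [sq]
  have hH : H.totalDegree ≤ d + 2 * N := by
    refine (totalDegree_mul _ _).trans (add_le_add ((deg_aeval s hs P).trans (by omega))
      ((totalDegree_pow _ _).trans ?_))
    have : (1 + ∑ j : β, (X (.inr j) : MvPolynomial (α ⊕ β) ℝ) ^ 2).totalDegree ≤ 2 :=
      (totalDegree_add _ _).trans (max_le (by simp)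
        (totalDegree_finsetSum_le fun j _ => by simp))
    nlinarith
  obtain ⟨C, hC⟩ := loj2 H hH (fun p => by
    rw [← Sum.elim_comp_inl_inr p, hev]
    have := sq_nonneg' (p ∘ Sum.inr)
    exact mul_nonneg (h0 _) (by positivity)) hN' fun a ha => by
      obtain ⟨z, hz⟩ := hz a ha
      exact ⟨z, by rw [hev, hz, zero_mul]⟩
  refine ⟨C, fun a ha c hc hc1 => ?_⟩
  obtain ⟨z, h1, h2⟩ := hC a ha c hc hc1
  exact ⟨z, h1, by rwa [hev] at h2⟩

theorem nf_no (P : MvPolynomial ((γ ⊕ α) ⊕ β) ℝ) {d N N' : ℕ} (hd : P.totalDegree ≤ d)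
    (h0 : ∀ p, 0 ≤ eval p P) (hN : 2 * B1 (Fintype.card β) d ≤ N) (x : γ → ℝ) (C : ℝ) (a : α → ℝ)
    (h : ∀ c : ℝ, 0 < c → c ≤ 1 → ∀ δ > 0, ∃ x' C' a' c' z, dist x' x < δ ∧ |C' - C| < δ ∧
      dist a' a < δ ∧ |c' - c| < δ ∧ Core P N N' x' C' a' c' z) :
    ∃ z, eval (Sum.elim (Sum.elim x a) z) P = 0 := by
  by_contra hne
  push Not at hne
  obtain ⟨c0, hc0, hlow⟩ := loj1 P hd hN (Sum.elim x a) fun z => (h0 _).lt_of_ne' (hne z)
  set c := min 1 (c0 / 2) with hc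
  have hc' : 0 < c := by positivity
  have hc1 : c ≤ 1 := min_le_left _ _
  have hc2 : c ≤ c0 / 2 := min_le_right _ _
  choose! x' C' a' c' z h1 h2 h3 h4 h5 using h c hc' hc1
  let δ : ℕ → ℝ := fun n => c / 2 * (1 / ((n : ℝ) + 1))
  have hδ : ∀ n, 0 < δ n := fun n => by positivity
  have hδ1 : ∀ n, δ n ≤ c / 2 := fun n => mul_le_of_le_one_right (by positivity) (by
    rw [div_le_one (by positivity)]; linarith [Nat.cast_nonneg (α := ℝ) n])
  have hδ0 : Tendsto δ atTop (𝓝 0) := by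
    have := (tendsto_one_div_add_atTop_nhds_zero_nat (𝕜 := ℝ)).const_mul (c / 2)
    rwa [mul_zero] at this
  have hb : ∀ n, z (δ n) ∈ closedBall (0 : β → ℝ) (1 + (C + 1) / (c / 2) ^ N') := fun n => by
    refine mem_closedBall_zero_iff.2 ((norm_le_sq _).trans ?_)
    have e1 := abs_lt.1 (h2 _ (hδ n))
    have e2 := abs_lt.1 (h4 _ (hδ n))
    have e3 := (h5 _ (hδ n)).1
    have e4 := hδ1 n
    have e5 : (c / 2) ^ N' ≤ c' (δ n) ^ N' := pow_le_pow_left₀ (by positivity) (by linarith) _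
    have e6 := mul_le_mul_of_nonneg_right e5 (sq_nonneg' (z (δ n)))
    have : sq (z (δ n)) ≤ (C + 1) / (c / 2) ^ N' := by
      rw [le_div_iff₀ (by positivity)]; linarith
    linarith
  obtain ⟨z0, -, φ, hφ, hz⟩ := (isCompact_closedBall _ _).tendsto_subseq hb
  have hδφ : Tendsto (fun n => δ (φ n)) atTop (𝓝 0) := hδ0.comp hφ.tendsto_atTop
  have tx : Tendsto (fun n => x' (δ (φ n))) atTop (𝓝 x) :=
    tendsto_iff_dist_tendsto_zero.2 (squeeze_zero (fun _ => dist_nonneg)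
      (fun n => (h1 _ (hδ _)).le) hδφ)
  have ta : Tendsto (fun n => a' (δ (φ n))) atTop (𝓝 a) :=
    tendsto_iff_dist_tendsto_zero.2 (squeeze_zero (fun _ => dist_nonneg)
      (fun n => (h3 _ (hδ _)).le) hδφ)
  have tc : Tendsto (fun n => c' (δ (φ n))) atTop (𝓝 c) :=
    tendsto_iff_dist_tendsto_zero.2 (squeeze_zero (fun _ => dist_nonneg)
      (fun n => (h4 _ (hδ _)).le) hδφ)
  have hG : Continuous fun p : (γ → ℝ) × (α → ℝ) × (β → ℝ) =>
      eval (Sum.elim (Sum.elim p.1 p.2.1) p.2.2) P * (1 + sq p.2.2) ^ N :=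
    (continuous_evalSum P (continuous_sumElim (by fun_prop) (by fun_prop)) (by fun_prop)).mul
      (by fun_prop)
  have := le_of_tendsto_of_tendsto' ((hG.tendsto (x, a, z0)).comp (tx.prodMk_nhds (ta.prodMk_nhds hz)))
    tc fun n => (h5 _ (hδ _)).2
  have := hlow z0
  linarith

theorem pow_bound {a b S j : ℕ} (ha : a ≤ S) (hb : b ≤ 2 ^ j) : (a * b) ^ a ≤ 2 ^ (S * (S + j)) := by
  have h1 : a * b ≤ 2 ^ (S + j) := by
    rw [pow_add]
    exact Nat.mul_le_mul (ha.trans Nat.lt_two_pow_self.le) hb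
  calc (a * b) ^ a ≤ (2 ^ (S + j)) ^ a := Nat.pow_le_pow_left h1 a
    _ ≤ (2 ^ (S + j)) ^ S := Nat.pow_le_pow_right (by positivity) ha
    _ = 2 ^ (S * (S + j)) := by rw [← pow_mul, mul_comm]

/-- First exponent. -/
def k1 (S : ℕ) : ℕ := S * (S + S) + 1

/-- Second exponent. -/
def k2 (S : ℕ) : ℕ := S * (S + (S * (S + (k1 S + 2)) + 4))

theorem k1_spec {r d S : ℕ} (hr : r + 2 ≤ S) (hd : d + 3 ≤ S) : 2 * B1 r d ≤ 2 ^ k1 S := by
  have := pow_bound hr (hd.trans Nat.lt_two_pow_self.le)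
  unfold B1 k1
  rw [pow_succ 2]
  omega

theorem k2_spec {m r d S : ℕ} (hm : m + 4 ≤ S) (hr : r + 2 ≤ S) (hd : d + 3 ≤ S) :
    B2 m (B1 r (d + 2 * 2 ^ k1 S)) ≤ 2 ^ k2 S := by
  have h0 : S < 2 ^ S := Nat.lt_two_pow_self
  have h1 : 2 ^ S ≤ 2 ^ k1 S := Nat.pow_le_pow_right (by norm_num) (by unfold k1; nlinarith)
  have h2 : B1 r (d + 2 * 2 ^ k1 S) ≤ 2 ^ (S * (S + (k1 S + 2))) :=
    pow_bound hr (by rw [pow_add]; omega)
  have h3 : 2 ^ S ≤ 2 ^ (S * (S + (k1 S + 2))) := Nat.pow_le_pow_right (by norm_num) (by nlinarith)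
  exact pow_bound hm (by rw [pow_add]; omega)

end Pool.Agent.Lib.MP_1b4d2d_lc
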