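import Pool.Agent.Lib.MP_1b4d2d_lc.Gadget
import Pool.Agent.Lib.MP_1b4d2d_lc.Geo
import Pool.Agent.Lib.MP_1b4d2d_lc.Normal

/-!
Correctness of the hardness reduction.
-/

set_option autoImplicit false

namespace Pool.Agent.Lib.MP_1b4d2d_lc

open Pool.Agent.Shared.PolyTime MvPolynomial Metric

/-- The polynomial variables attached to the indices. -/
noncomputable def sig (k m nz L : ℕ) (i : ℕ) : MvPolynomial ((Fin k ⊕ Fin (m + 1)) ⊕ Fin nz) ℝ :=
  if h : i < k then X (.inl (.inl ⟨i, h⟩))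
  else if h' : i - k < nz then X (.inr ⟨i - k, h'⟩)
  else if h'' : i - (L + 2) < m + 1 then X (.inl (.inr ⟨i - (L + 2), h''⟩)) else 0

/-- The nonnegative polynomial of the normal form. -/
noncomputable def Pol (k m nz L : ℕ) (G : Tm) : MvPolynomial ((Fin k ⊕ Fin (m + 1)) ⊕ Fin nz) ℝ :=
  (Ftm k m L G).toPoly (sig k m nz L)

theorem deg_Pol (k m nz L : ℕ) (G : Tm) : (Pol k m nz L G).totalDegree ≤ G.deg + 6 :=
  (Tm.deg_toPoly _ (fun i => by unfold sig; split_ifs <;> simp) _).trans (deg_Ftm _ _ _ _)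

theorem Pol_nonneg (k m nz L : ℕ) {G : Tm} (h0 : ∀ ρ, 0 ≤ G.eval ρ)
    (p : (Fin k ⊕ Fin (m + 1)) ⊕ Fin nz → ℝ) : 0 ≤ eval p (Pol k m nz L G) := by
  rw [Pol, Tm.eval_toPoly, eval_Ftm]
  exact add_nonneg (h0 _) (Finset.sum_nonneg fun _ _ => sq_nonneg _)

theorem eval_Pol {k m nz L : ℕ} {G : Tm} (hG : G.Below (k + nz)) (hm : m ≤ nz) (hL : k + nz ≤ L)
    (ρ : ℕ → ℝ) : eval (Sum.elim (Sum.elim (fun i : Fin k => ρ i)
      fun j : Fin (m + 1) => ρ (L + 2 + j)) fun i : Fin nz => ρ (k + i)) (Pol k m nz L G) =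
      (Ftm k m L G).eval ρ := by
  rw [Pol, Tm.eval_toPoly]
  refine Ftm_congr hG (by omega) (fun i hi => ?_) fun j hj => ?_
  · unfold sig
    by_cases h : i < k
    · simp [h]
    · rw [dif_neg h, dif_pos (by omega)]
      simp only [eval_X, Sum.elim_inr]
      congr 1
      omega
  · unfold sig
    rw [dif_neg (by omega), dif_neg (by omega), dif_pos (by omega)]
    simp

theorem coreR_iff {k m nz K1 K2 : ℕ} {G : Tm} (hG : G.Below (k + nz)) (hm : m ≤ nz) (ρ : ℕ → ℝ) :
    CoreR k nz K1 K2 (Ftm k m (k + (nz + K1 + K2 + 3)) G) ρ ↔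
      Core (Pol k m nz (k + (nz + K1 + K2 + 3)) G) (2 ^ K1) (2 ^ K2) (fun i : Fin k => ρ i)
        (ρ (k + (nz + K1 + K2 + 3))) (fun j : Fin (m + 1) => ρ (k + (nz + K1 + K2 + 3) + 2 + j))
        (ρ (k + (nz + K1 + K2 + 3) + 1)) fun i : Fin nz => ρ (k + i) := by
  rw [Core, eval_Pol hG hm (by omega), sq, Fin.sum_univ_eq_sum_range (fun i => ρ (k + i) ^ 2) nz]
  rfl

theorem ext_lt {n : ℕ} (v : Fin n → ℝ) {i : ℕ} (h : i < n) : ext v i = v ⟨i, h⟩ := dif_pos h

theorem ext_ge {n : ℕ} (v : Fin n → ℝ) {i : ℕ} (h : n ≤ i) : ext v i = 0 := dif_neg (by omega)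

@[simp] theorem ext_coe {n : ℕ} (v : Fin n → ℝ) (i : Fin n) : ext v i = v i := dif_pos i.2

theorem ext_append {p q : ℕ} (u : Fin p → ℝ) (w : Fin q → ℝ) (i : ℕ) :
    ext (Fin.append u w) i = if i < p then ext u i else ext w (i - p) := by
  by_cases h : i < p
  · rw [if_pos h, ext_lt _ h, ext_lt _ (show i < p + q by omega)]
    exact Fin.append_left u w ⟨i, h⟩
  · rw [if_neg h]
    by_cases h' : i < p + q
    · rw [ext_lt _ h', ext_lt _ (show i - p < q by omega), ← Fin.append_right u w]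
      congr 1
      ext
      simp
      omega
    · rw [ext_ge _ (by omega), ext_ge _ (by omega)]

theorem norm_mW_ext {D k len : ℕ} (h : k + len ≤ D) (p : EuclideanSpace ℝ (Fin D)) :
    ‖mW (fun i : Fin D => k ≤ i.1 ∧ i.1 < k + len) p‖ ^ 2 = (sqT k len).eval (ext p.ofLp) := by
  rw [norm_mW_sq, eval_sqT, Finset.sum_congr rfl (g := fun i : Fin D =>
    (fun j => if k ≤ j ∧ j < k + len then ext p.ofLp j ^ 2 else 0) i.1) (fun i _ => by simp),
    Fin.sum_univ_eq_sum_range (fun j => if k ≤ j ∧ j < k + len then ext p.ofLp j ^ 2 else 0),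
    ← Finset.sum_filter, show (Finset.range D).filter (fun j => k ≤ j ∧ j < k + len) =
      Finset.Ico k (k + len) by ext; simp; omega, Finset.sum_Ico_eq_sum_range]
  simp

/-- The formula for `A`. -/
def fA (k m len : ℕ) : Fm := .or (fA0 m (k + len)) (.eq (sqT k len) (.cst 4))

/-- The formula for `B`. -/
def fB (k m nz K1 K2 : ℕ) (G : Tm) : Fm :=
  .or (fB0 k m nz K1 K2 (Ftm k m (k + (nz + K1 + K2 + 3)) G))
    (.eq (sqT k (nz + K1 + K2 + 3)) (.cst 9))

theorem holds_fA0 (ρ : ℕ → ℝ) (m L : ℕ) :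
    (fA0 m L).Holds ρ ↔ (∀ i < L + 1, ρ i = 0) ∧ (box m L).Holds ρ := by
  simp [fA0, Fm.Holds, holds_conj, Tm.eval]

theorem gadget_iff {k m nz K1 K2 d D : ℕ} {G : Tm} (hG : G.Below (k + nz)) (hm : m ≤ nz)
    (h0 : ∀ ρ, 0 ≤ G.eval ρ) (hd : G.deg + 6 ≤ d) (h1 : 2 * B1 nz d ≤ 2 ^ K1)
    (h2 : B2 (m + 1) (B1 (m + 1 + nz) (d + 2 * 2 ^ K1)) ≤ 2 ^ K2)
    (hD : D = k + (nz + K1 + K2 + 3) + 3 + m) :
    (∃ v : EuclideanSpace ℝ (Fin D), hausdorffEDist ((fun p => p + v) ''
      (fA k m (nz + K1 + K2 + 3)).set D) ((fB k m nz K1 K2 G).set D) ≤ ENNReal.ofReal 1) ↔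
    ∃ x : Fin k → ℝ, ∀ a : Fin (m + 1) → ℝ, ‖a‖ ≤ 1 → ∃ z : Fin nz → ℝ,
      eval (Sum.elim (Sum.elim x a) z) (Pol k m nz (k + (nz + K1 + K2 + 3)) G) = 0 := by
  obtain ⟨W, _, hW, hN⟩ : ∃ (W : Fin D → Prop) (_ : DecidablePred W),
      (∀ i, W i ↔ k ≤ i.1 ∧ i.1 < k + (nz + K1 + K2 + 3)) ∧ ∀ p : EuclideanSpace ℝ (Fin D),
        ‖mW W p‖ ^ 2 = (sqT k (nz + K1 + K2 + 3)).eval (ext p.ofLp) :=
    ⟨_, _, fun _ => Iff.rfl, norm_mW_ext (by omega)⟩
  have hA : ∀ p, p ∈ (fA k m (nz + K1 + K2 + 3)).set D ↔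
      p ∈ (fA0 m (k + (nz + K1 + K2 + 3))).set D ∨ ‖mW W p‖ = 2 := fun p =>
    or_congr_right (by
      simp only [Fm.Holds, Tm.eval, ← hN]
      rw [← sq_eq_sq₀ (norm_nonneg _) (by norm_num)]; norm_num)
  have hB : ∀ p, p ∈ (fB k m nz K1 K2 G).set D ↔
      p ∈ (fB0 k m nz K1 K2 (Ftm k m (k + (nz + K1 + K2 + 3)) G)).set D ∨ ‖mW W p‖ = 3 := fun p =>
    or_congr_right (by
      simp only [Fm.Holds, Tm.eval, ← hN]
      rw [← sq_eq_sq₀ (norm_nonneg _) (by norm_num)]; norm_num)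
  have hA0 : ∀ p ∈ (fA0 m (k + (nz + K1 + K2 + 3))).set D, mW W p = 0 := fun p hp => by
    ext i
    by_cases hi : W i
    · have := ((holds_fA0 _ _ _).1 hp).1 i (by have := (hW i).1 hi; omega)
      simpa [mW, hi] using this
    · simp [mW, hi]
  have hB0 : ∀ p ∈ (fB0 k m nz K1 K2 (Ftm k m (k + (nz + K1 + K2 + 3)) G)).set D,
      ‖mW W p‖ = 1 := fun p hp => by
    have := hp.2.1
    simp only [Fm.Holds, Tm.eval, ← hN] at this
    rw [← sq_eq_sq₀ (norm_nonneg _) zero_le_one, this]; norm_num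
  have hdeg := (deg_Pol k m nz (k + (nz + K1 + K2 + 3)) G).trans hd
  have hpos := Pol_nonneg k m nz (k + (nz + K1 + K2 + 3)) h0
  generalize hL : k + (nz + K1 + K2 + 3) = L at *
  constructor
  · rintro ⟨v, hv⟩
    have key : ∀ ρ : ℕ → ℝ, (∀ i < L + 1, ρ i = 0) → (box m L).Holds ρ → ∀ δ > 0, ∃ ρ',
        (fB0 k m nz K1 K2 (Ftm k m L G)).Holds ρ' ∧
          ∀ i < D, i < k ∨ L ≤ i → |ρ' i - (ρ i + ext v.ofLp i)| < δ := fun ρ e1 e2 δ hδ => by
      have e3 : ∀ i < D, ext (fun i : Fin D => ρ i) i = ρ i := fun i hi => ext_lt _ hi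
      obtain ⟨b, hb, hb'⟩ := geo_no W hA hB hA0 hB0 v hv (WithLp.toLp 2 fun i : Fin D => ρ i)
        ((holds_fA0 _ _ _).2 ⟨fun i hi => (e3 i (by omega)).trans (e1 i hi), by
          rw [holds_box] at e2 ⊢
          rw [e3 _ (by omega)]
          exact ⟨fun j hj => by rw [e3 _ (by omega)]; exact e2.1 j hj, e2.2⟩⟩) δ hδ
      refine ⟨_, hb, fun i hi h => ?_⟩
      rw [ext_lt _ hi, ext_lt _ hi]
      exact hb' ⟨i, hi⟩ (by rw [hW]; simp only; omega)
    have hbox : ∀ ρ, (fB0 k m nz K1 K2 (Ftm k m L G)).Holds ρ →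
        (∀ j < m + 1, ρ (L + 2 + j) ^ 2 ≤ 1) ∧ 0 < ρ (L + 1) ∧ ρ (L + 1) ≤ 1 := fun ρ h =>
      (holds_box _ _ _).1 (hL ▸ h.1)
    have key2 : ∀ (a : Fin (m + 1) → ℝ) (c : ℝ), ‖a‖ ≤ 1 → 0 < c → c ≤ 1 → ∀ δ > 0, ∃ ρ',
        (fB0 k m nz K1 K2 (Ftm k m L G)).Holds ρ' ∧ (∀ i < k, |ρ' i - ext v.ofLp i| < δ) ∧
          |ρ' L - ext v.ofLp L| < δ ∧ |ρ' (L + 1) - (c + ext v.ofLp (L + 1))| < δ ∧
          ∀ j : Fin (m + 1), |ρ' (L + 2 + j) - (a j + ext v.ofLp (L + 2 + j))| < δ :=
      fun a c ha hc hc1 δ hδ => by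
      obtain ⟨ρ', e1, e2⟩ := key (fun i => if i = L + 1 then c else if L + 2 ≤ i then
        ext a (i - (L + 2)) else 0) (fun i hi => by rw [if_neg (by omega), if_neg (by omega)]) (by
          rw [holds_box, if_pos rfl]
          refine ⟨fun j hj => ?_, hc, hc1⟩
          rw [if_neg (by omega), if_pos (by omega), Nat.add_sub_cancel_left, ext_lt _ hj,
            sq_le_one_iff_abs_le_one]
          exact (norm_le_pi_norm a _).trans ha) δ hδ
      refine ⟨ρ', e1, fun i hi => ?_, ?_, ?_, fun j => ?_⟩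
      · have := e2 i (by omega) (Or.inl hi)
        rwa [if_neg (by omega), if_neg (by omega), zero_add] at this
      · have := e2 L (by omega) (Or.inr le_rfl)
        rwa [if_neg (by omega), if_neg (by omega), zero_add] at this
      · have := e2 (L + 1) (by omega) (Or.inr (by omega))
        rwa [if_pos rfl] at this
      · have := e2 (L + 2 + j) (by omega) (Or.inr (by omega))
        rwa [if_neg (by omega), if_pos (by omega), Nat.add_sub_cancel_left, ext_coe] at this
    have vc : ext v.ofLp (L + 1) = 0 := by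
      refine le_antisymm (le_of_forall_pos_le_add fun δ hδ => ?_) (not_lt.1 fun h => ?_)
      · obtain ⟨ρ', e1, -, -, e2, -⟩ := key2 0 1 (by simp) one_pos le_rfl δ hδ
        linarith [(hbox _ e1).2.2, (abs_lt.1 e2).1]
      · have hc : 0 < min 1 (-ext v.ofLp (L + 1) / 2) := lt_min one_pos (by linarith)
        obtain ⟨ρ', e1, -, -, e2, -⟩ := key2 0 _ (by simp) hc (min_le_left _ _) _ hc
        linarith [(hbox _ e1).2.1, (abs_lt.1 e2).2, min_le_right 1 (-ext v.ofLp (L + 1) / 2)]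
    have va : ∀ j : Fin (m + 1), ext v.ofLp (L + 2 + j) = 0 := fun j => by
      refine le_antisymm (le_of_forall_pos_le_add fun δ hδ => ?_)
        (le_of_forall_pos_le_add fun δ hδ => ?_)
      · obtain ⟨ρ', e1, -, -, -, e2⟩ := key2 1 1 (by simp) one_pos le_rfl δ hδ
        have := abs_le.1 (sq_le_one_iff_abs_le_one _ |>.1 ((hbox _ e1).1 j j.2))
        have := abs_lt.1 (e2 j)
        simp only [Pi.one_apply] at this
        linarith
      · obtain ⟨ρ', e1, -, -, -, e2⟩ := key2 (-1) 1 (by simp) one_pos le_rfl δ hδ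
        have := abs_le.1 (sq_le_one_iff_abs_le_one _ |>.1 ((hbox _ e1).1 j j.2))
        have := abs_lt.1 (e2 j)
        simp only [Pi.neg_apply, Pi.one_apply] at this
        linarith
    refine ⟨fun i => ext v.ofLp i, fun a ha => nf_no (N' := 2 ^ K2) _ hdeg hpos (by simpa using h1)
      _ (ext v.ofLp L) a fun c hc hc1 δ hδ => ?_⟩
    obtain ⟨ρ', e1, e2, e3, e4, e5⟩ := key2 a c ha hc hc1 δ hδ
    have e6 := core_of_fB0 e1
    subst hL
    refine ⟨_, _, _, _, _, ?_, ?_, ?_, ?_, (coreR_iff hG hm _).1 e6⟩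
    · refine (dist_pi_lt_iff hδ).2 fun i => ?_
      rw [dehom_out _ (Or.inl i.2)]
      exact e2 i i.2
    · rwa [dehom_out _ (by omega)]
    · refine (dist_pi_lt_iff hδ).2 fun j => ?_
      have := e5 j
      rwa [va, add_zero, ← dehom_out (k := k) (nz := nz) (s := k + nz + K1 + K2 + 2) ρ'
        (by omega)] at this
    · rwa [dehom_out _ (by omega), ← add_zero c, ← vc]
  · rintro ⟨x, hx⟩
    obtain ⟨C, hC⟩ := nf_yes (N := 2 ^ K1) (N' := 2 ^ K2) _ hdeg hpos (by simpa using h2) x hx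
    let v : EuclideanSpace ℝ (Fin D) :=
      WithLp.toLp 2 fun i : Fin D => if i.1 < k then ext x i else if i.1 = L then C else 0
    refine ⟨v, geo_yes W hA hB hA0 hB0 v ?_ fun p hp => ?_⟩
    · ext i
      by_cases hi : W i
      · have h3 : ¬ i.1 < k := by have := (hW i).1 hi; omega
        have h4 : ¬ i.1 = L := by have := (hW i).1 hi; omega
        simp [mW, hi, v, h3, h4]
      · simp [mW, hi]
    obtain ⟨e1, e2⟩ := (holds_fA0 _ _ _).1 hp
    have e3 := (holds_box _ _ _).1 e2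
    obtain ⟨z, hz⟩ := hC (fun j => ext p.ofLp (L + 2 + j))
      ((pi_norm_le_iff_of_nonneg zero_le_one).2 fun j =>
        (sq_le_one_iff_abs_le_one _).1 (e3.1 j j.2)) _ e3.2.1 e3.2.2
    let ρ0 : ℕ → ℝ := fun i => if k ≤ i ∧ i < k + nz then ext z (i - k) else ext (p + v).ofLp i
    have f0 : ∀ i, (hi : i < D) → i < k ∨ L ≤ i → ρ0 i = p ⟨i, hi⟩ + v ⟨i, hi⟩ := fun i hi h => by
      simp only [ρ0]
      rw [if_neg (by omega), ext_lt _ hi]
      rfl
    have f1 : ∀ i, L < i → ρ0 i = ext p.ofLp i := fun i hi => by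
      by_cases h : i < D
      · rw [f0 i h (by omega), ext_lt _ h]
        simp only [v]
        rw [if_neg (by omega), if_neg (by omega), add_zero]
      · simp only [ρ0]
        rw [if_neg (by omega), ext_ge _ (by omega), ext_ge _ (by omega)]
    have f2 : (fun i : Fin k => ρ0 i) = x := funext fun i => by
      have := e1 i (by omega)
      rw [ext_lt _ (by omega)] at this
      rw [f0 i (by omega) (Or.inl i.2), this]
      simp [v]
    have f3 : ρ0 L = C := by
      have := e1 L (by omega)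
      rw [ext_lt _ (by omega)] at this
      rw [f0 L (by omega) (Or.inr le_rfl), this]
      simp only [v]
      rw [if_neg (by omega), if_pos trivial, zero_add]
    have f4 : (fun i : Fin nz => ρ0 (k + i)) = z := funext fun i => by
      simp only [ρ0]
      rw [if_pos (by omega), Nat.add_sub_cancel_left, ext_coe]
    subst hL
    obtain ⟨ρ, g1, g2⟩ := fB0_of_core (K1 := K1) (K2 := K2) hG hm (ρ0 := ρ0) (by
      rw [holds_box, f1 _ (by omega)]
      exact ⟨fun j hj => by rw [f1 _ (by omega)]; exact e3.1 j hj, e3.2⟩) (by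
      rw [coreR_iff hG hm, f2, f3, f4, f1 _ (by omega), funext fun j => f1 _ (by omega)]
      exact hz)
    refine ⟨WithLp.toLp 2 fun i : Fin D => ρ i, ?_, fun i hi => ?_⟩
    · have : ext (fun i : Fin D => ρ i) = ρ := funext fun i => by
        by_cases h : i < D
        · exact ext_lt _ h
        · rw [ext_ge _ (by omega), g2 _ (by omega), f1 _ (by omega), ext_ge _ (by omega)]
      change Fm.Holds (ext fun i : Fin D => ρ i) _
      rwa [this]
    · have h : i.1 < k ∨ k + (nz + K1 + K2 + 3) ≤ i.1 := by rw [hW] at hi; omega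
      exact (g2 i h).trans (f0 i i.2 h)

theorem exists_asg {k m nz L : ℕ} (hL : k + nz ≤ L) (x : Fin k → ℝ) (a : Fin (m + 1) → ℝ)
    (z : Fin nz → ℝ) : ∃ ρ : ℕ → ℝ, (fun i : Fin k => ρ i) = x ∧
      (fun j : Fin (m + 1) => ρ (L + 2 + j)) = a ∧ (fun i : Fin nz => ρ (k + i)) = z := by
  refine ⟨fun i => if i < k then ext x i else if i < k + nz then ext z (i - k)
    else ext a (i - (L + 2)), funext fun i => ?_, funext fun j => ?_, funext fun i => ?_⟩
  · simp
  · beta_reduce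
    rw [if_neg (by omega), if_neg (by omega), Nat.add_sub_cancel_left, ext_coe]
  · beta_reduce
    rw [if_neg (by omega), if_pos (by omega), Nat.add_sub_cancel_left, ext_coe]

theorem logic_iff {k m n nz L : ℕ} {φ : Fm} (hφ : φ.Below (k + m + n))
    (hnz : nz = m + n + φ.code.length) (hL : k + nz ≤ L) :
    (∃ x : Fin k → ℝ, ∀ y : Fin m → ℝ, ∃ z : Fin n → ℝ,
      φ.Holds (ext (Fin.append (Fin.append x y) z))) ↔
    ∃ x : Fin k → ℝ, ∀ a : Fin (m + 1) → ℝ, ‖a‖ ≤ 1 → ∃ z : Fin nz → ℝ,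
      eval (Sum.elim (Sum.elim x a) z) (Pol k m nz L (ar (k + m + n) 0 φ).1) = 0 := by
  have hG : (ar (k + m + n) 0 φ).1.Below (k + nz) := (ar_below _ φ hφ 0).1.mono (by omega)
  refine exists_congr fun x => ⟨fun h a _ => ?_, fun h y => ?_⟩
  · obtain ⟨z, hz⟩ := h fun i => a i.succ / a 0
    obtain ⟨ρ', e1, e2, -⟩ := ar_complete _ φ hφ 0 (ext (Fin.append (Fin.append x
      fun i => a i.succ / a 0) z))
    obtain ⟨ρ, f1, f2, f3⟩ := exists_asg hL x a fun i : Fin nz => ρ' (k + i)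
    have g : ∀ i < k + nz, ρ i = ρ' i := fun i hi => by
      by_cases h : i < k
      · rw [e1 i (by omega), ext_append, if_pos (by omega), ext_append, if_pos h, ext_lt _ h, ← f1]
      · have := congrFun f3 ⟨i - k, by omega⟩
        simpa [show k + (i - k) = i by omega] using this
    refine ⟨fun i => ρ (k + i), ?_⟩
    conv_lhs => rw [← f1, ← f2]
    rw [eval_Pol hG (by omega) hL, eval_Ftm, Tm.eval_congr g hG, e2 hz, zero_add]
    refine Finset.sum_eq_zero fun i hi => ?_
    have hi := Finset.mem_range.1 hi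
    have g0 : ρ (L + 2) = a 0 := congrFun f2 0
    have g1 : ρ (L + 3 + i) = a (Fin.succ ⟨i, hi⟩) := by
      rw [← congrFun f2]
      congr 1
      simp
      omega
    rw [g0, g1, g _ (by omega), e1 _ (by omega), ext_append, if_pos (by omega), ext_append,
      if_neg (by omega), Nat.add_sub_cancel_left, ext_lt _ hi]
    by_cases h0 : a 0 = 0
    · simp [h0]
    · rw [mul_div_cancel₀ _ h0]
      simp
  · have hy : 0 < 1 + ‖y‖ := by positivity
    obtain ⟨z, hz⟩ := h (fun j => (1 + ‖y‖)⁻¹ * (Fin.cons 1 y : Fin (m + 1) → ℝ) j)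
      ((pi_norm_le_iff_of_nonneg zero_le_one).2 fun j => by
        rw [norm_mul, norm_inv, Real.norm_of_nonneg hy.le, inv_mul_le_iff₀ hy, mul_one]
        refine Fin.cases ?_ (fun i => ?_) j
        · simp
        · simpa using (norm_le_pi_norm y i).trans (by linarith))
    obtain ⟨ρ, f1, f2, f3⟩ := exists_asg hL x
      (fun j => (1 + ‖y‖)⁻¹ * (Fin.cons 1 y : Fin (m + 1) → ℝ) j) z
    rw [← f1, ← f2, ← f3, eval_Pol hG (by omega) hL, eval_Ftm,
      add_eq_zero_iff_of_nonneg (ar_nonneg _ _ _ _).1 (Finset.sum_nonneg fun _ _ => sq_nonneg _),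
      Finset.sum_eq_zero_iff_of_nonneg fun _ _ => sq_nonneg _] at hz
    refine ⟨fun i => ρ (k + m + i), (Fm.holds_congr (fun i hi => ?_) hφ).1
      ((ar_sound _ ρ φ 0).1 hz.1)⟩
    rw [ext_append, ext_append]
    split_ifs with h1 h2
    · rw [ext_lt _ h2, ← f1]
    · have hi : i - k < m := by omega
      have g0 : ρ (L + 2) = (1 + ‖y‖)⁻¹ := by simpa using congrFun f2 0
      have g1 : ρ (L + 3 + (i - k)) = (1 + ‖y‖)⁻¹ * y ⟨i - k, hi⟩ := by
        have := congrFun f2 (Fin.succ ⟨i - k, hi⟩)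
        simp only [Fin.cons_succ, Fin.val_succ] at this
        rw [← this]
        congr 1
        omega
      have := hz.2 (i - k) (Finset.mem_range.2 hi)
      rw [g0, g1, show k + (i - k) = i by omega, ← mul_sub] at this
      rw [ext_lt _ hi]
      simpa [hy.ne', sub_eq_zero] using this
    · rw [ext_lt _ (by omega)]
      congr 1
      simp only
      omega

/-- The size parameter of the reduction. -/
def par (S : Sentence) : ℕ :=
  S.2.1.length + (S.2.1.length + S.2.2.1.length + S.2.2.2.code.length) +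
    4 * S.2.2.2.code.length + 20

/-- The dimension of the output. -/
def dimOf (S : Sentence) : ℕ :=
  S.1.length + (S.2.1.length + S.2.2.1.length + S.2.2.2.code.length + k1 (par S) + k2 (par S) + 3)
    + 3 + S.2.1.length

/-- The reduction. -/
def red (S : Sentence) : Inst :=
  (List.replicate (dimOf S) true,
    (fA S.1.length S.2.1.length (S.2.1.length + S.2.2.1.length + S.2.2.2.code.length +
      k1 (par S) + k2 (par S) + 3)).sub 0 (dimOf S),
    (fB S.1.length S.2.1.length (S.2.1.length + S.2.2.1.length + S.2.2.2.code.length)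
      (k1 (par S)) (k2 (par S)) (ar (S.1.length + S.2.1.length + S.2.2.1.length) 0
        (S.2.2.2.sub 0 (S.1.length + S.2.1.length + S.2.2.1.length))).1).sub 0 (dimOf S), 1)

theorem red_wf (S : Sentence) : (red S).WellFormed := by
  have h : ∀ φ : Fm, (φ.sub 0 (dimOf S)).Below (List.replicate (dimOf S) true).length := fun φ => by
    simpa using φ.below_sub 0 (dimOf S)
  exact ⟨h _, h _⟩

theorem set_sub (φ : Fm) {n n' : ℕ} (h : n' = n) : (φ.sub 0 n).set n' = φ.set n' := by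
  subst h
  exact Set.ext fun p => φ.holds_sub_ext _

theorem red_iff (S : Sentence) : EAE S ↔ THD (red S) := by
  obtain ⟨lk, lm, ln, φ0⟩ := S
  have hφ : (φ0.sub 0 (lk.length + lm.length + ln.length)).Below
      (lk.length + lm.length + ln.length) := by
    simpa using φ0.below_sub 0 (lk.length + lm.length + ln.length)
  have hT : (φ0.sub 0 (lk.length + lm.length + ln.length)).code.length = φ0.code.length := by
    simp [Fm.code_sub]
  have hd := (ar_deg (lk.length + lm.length + ln.length)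
    (φ0.sub 0 (lk.length + lm.length + ln.length)) 0).1
  unfold EAE THD
  simp only [red, set_sub _ List.length_replicate, zero_le_one, true_and, Rat.cast_one]
  refine Iff.trans ?_ (gadget_iff (k := lk.length) (m := lm.length)
    (nz := lm.length + ln.length + φ0.code.length) (d := 4 * φ0.code.length + 6)
    ((ar_below _ _ hφ 0).1.mono (by omega)) (by omega)
    (fun ρ => (ar_nonneg _ _ _ _).1) (by omega) (k1_spec (by unfold par; simp only; omega)
    (by unfold par; simp only; omega)) (k2_spec (by unfold par; simp only; omega)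
    (by unfold par; simp only; omega) (by unfold par; simp only; omega)) List.length_replicate).symm
  rw [← logic_iff hφ (by omega) (by omega)]
  simp only [Fm.holds_sub_ext]

theorem pt_red : PT red := by
  have h1 : PT par := by unfold par; fun_prop
  have h2 : PB par := by unfold par; fun_prop
  have h3 : PT fun S => k1 (par S) := by unfold k1; fun_prop
  have h4 : PB fun S => k1 (par S) := by unfold k1; fun_prop
  have h5 : PT fun S => k2 (par S) := by unfold k2; fun_prop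
  have h6 : PB fun S => k2 (par S) := by unfold k2; fun_prop
  have h7 : PT dimOf := by unfold dimOf; fun_prop
  have h8 : PB dimOf := by unfold dimOf; fun_prop
  unfold red fA fB
  fun_prop

end Pool.Agent.Lib.MP_1b4d2d_lc
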