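import Pool.Agent.Lib.MP_1b4d2d_lc.Stage

/-!
Two Lojasiewicz type inequalities with singly exponential exponents.
-/

set_option autoImplicit false

namespace Pool.Agent.Lib.MP_1b4d2d_lc

open MvPolynomial Metric

/-- First degree bound. -/
def B1 (r d : ℕ) : ℕ := ((r + 2) * (d + 3)) ^ (r + 2)

/-- Second degree bound. -/
def B2 (m d : ℕ) : ℕ := ((m + 4) * (3 * (d + 2 * m) + 1)) ^ (m + 4)

theorem continuous_evalSum {α β X : Type} [TopologicalSpace X] (H : MvPolynomial (α ⊕ β) ℝ)
    {f : X → α → ℝ} {g : X → β → ℝ} (hf : Continuous f) (hg : Continuous g) :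
    Continuous fun x => eval (Sum.elim (f x) (g x)) H :=
  (MvPolynomial.continuous_eval H).comp (continuous_sumElim hf hg)

/-- A polynomial without zeros decays at most like `(1 + |z|²) ^ (-N)`. -/
theorem loj1 {α β : Type} [Fintype β] (F : MvPolynomial (α ⊕ β) ℝ) {d N : ℕ}
    (hd : F.totalDegree ≤ d) (hN : 2 * B1 (Fintype.card β) d ≤ N) (a : α → ℝ)
    (hpos : ∀ z, 0 < eval (Sum.elim a z) F) :
    ∃ c > 0, ∀ z, c ≤ eval (Sum.elim a z) F * (1 + sq z) ^ N := by
  let s : α ⊕ β → MvPolynomial (Empty ⊕ β) ℝ := Sum.elim (fun i => C (a i)) fun j => X (.inr j)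
  have hs : ∀ i, (s i).totalDegree ≤ 1 := by rintro (i | j) <;> simp [s]
  have hev : ∀ x, eval x (aeval s F) = eval (Sum.elim a fun j => x (.inr j)) F := fun x => by
    rw [eval_aeval']
    congr 2
    funext i
    rcases i with i | j <;> simp [s]
  obtain ⟨q, hq, hqd, hqe⟩ := stage1 (aeval s F) (d := d) ((deg_aeval s hs F).trans (by omega))
    fun x => by rw [hev]; exact (hpos _).le
  let r : Empty ⊕ Two → MvPolynomial Two ℝ :=
    Sum.elim Empty.elim fun o => o.elim (X none * X (some none)) fun _ => X none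
  have hr : ∀ i, (r i).totalDegree ≤ 2 := by
    rintro (i | _ | o)
    · exact i.elim
    · exact (totalDegree_mul _ _).trans (by simp)
    · simp [r]
  have hrev : ∀ m v, eval (ev2 m v) (aeval r q) = eval (Sum.elim Empty.elim (ev2 (m * v) m)) q := by
    intro m v
    rw [eval_aeval']
    congr 2
    funext i
    rcases i with i | _ | _ | o
    · exact i.elim
    · simp [r]
    · simp [r]
    · exact o.elim
  have hr0 : aeval r q ≠ 0 := fun h => hq (funext_set (fun _ => Set.Ioi 0)
    (fun _ => Set.Ioi_infinite 0) fun x hx => by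
      have h1 : x (.inr (some none)) ≠ 0 := (hx _ trivial).out.ne'
      have := hrev (x (.inr (some none))) (x (.inr none) / x (.inr (some none)))
      rw [h, map_zero, mul_div_cancel₀ _ h1] at this
      rw [map_zero, this]
      congr 2
      funext i
      rcases i with i | _ | _ | o
      · exact i.elim
      · rfl
      · rfl
      · exact o.elim)
  have hrd : (aeval r q).totalDegree ≤ N := by
    refine (deg_aeval r hr q).trans (le_trans ?_ hN)
    simp only [Fintype.card_empty, zero_add] at hqd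
    unfold B1
    omega
  obtain ⟨c, hc, δ, hδ, hgr⟩ := growth _ hr0 hrd (eval (Sum.elim a fun _ => 0) F)
  have hcont : Continuous fun z : β → ℝ => eval (Sum.elim a z) F :=
    continuous_evalSum F continuous_const continuous_id
  obtain ⟨z1, -, hz1⟩ := (isCompact_closedBall (0 : β → ℝ) (1 + 2 / δ)).exists_isMinOn
    ⟨0, mem_closedBall_self (by positivity)⟩ hcont.continuousOn
  set μ := eval (Sum.elim a z1) F with hμ
  have hμ0 : 0 < μ := hpos _
  set k := min (min 1 (μ * δ / 2)) (min (1 / 2) (c / 2)) with hk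
  have hk0 : 0 < k := by positivity
  have hk1 : k ≤ 1 := (min_le_left _ _).trans (min_le_left _ _)
  have hk2 : k ≤ μ * δ / 2 := (min_le_left _ _).trans (min_le_right _ _)
  have hk3 : k ≤ 1 / 2 := (min_le_right _ _).trans (min_le_left _ _)
  have hk4 : k ≤ c / 2 := (min_le_right _ _).trans (min_le_right _ _)
  refine ⟨k ^ (N + 1), by positivity, fun z => ?_⟩
  have hz0 := sq_nonneg' z
  set W := 1 + sq z with hW
  have hW1 : 1 ≤ W := by linarith
  set e := (k / W) ^ (N + 1) with he
  have he0 : 0 < e := by positivity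
  have hkW : k / W ≤ k := div_le_self hk0.le hW1
  have hek : e ≤ k := by
    have h1 : (k / W) ^ (N + 1) ≤ (k / W) ^ 1 :=
      pow_le_pow_of_le_one (by positivity) (hkW.trans hk1) (by omega)
    rw [pow_one] at h1
    exact h1.trans hkW
  obtain ⟨m, hm⟩ := exists_isMinVal (H := aeval s F) (fun x => by rw [hev]; exact (hpos _).le)
    Empty.elim he0
  have hrel := hqe _ _ _ he0 hm
  obtain ⟨hm1, z2, hm2⟩ := hm
  simp only [hev, Sum.elim_inr] at hm1 hm2
  have hme : 2 * e ≤ m * δ := by
    have h1 := hpos z2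
    have h2 := sq_nonneg' z2
    by_cases h3 : sq z2 ≤ 2 / δ
    · have h4 : μ ≤ eval (Sum.elim a z2) F :=
        hz1 (mem_closedBall_zero_iff.2 ((norm_le_sq z2).trans (by linarith)))
      have : μ ≤ m := by nlinarith
      nlinarith
    · have h4 : 2 < sq z2 * δ := (div_lt_iff₀ hδ).1 (not_le.1 h3)
      have : e * sq z2 ≤ m := by linarith
      nlinarith
  have hm0 : 0 < m := by
    by_contra h
    push Not at h
    nlinarith
  have h1 := hgr m (e / m) hm0 (by have := hm1 0; simp only [sq] at this; simpa using this) (by positivity)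
    (by rw [div_lt_iff₀ hm0]; nlinarith) (by rw [hrev, mul_div_cancel₀ _ hm0.ne']; exact hrel)
  have h2 : c * e ^ N ≤ m ^ (N + 1) := by
    rw [div_pow, ← mul_div_assoc, div_le_iff₀ (by positivity)] at h1
    rw [pow_succ']
    exact h1
  have h3 : (2 * k * (k / W) ^ N) ^ (N + 1) ≤ m ^ (N + 1) := by
    refine le_trans ?_ h2
    rw [mul_pow, he, ← pow_mul, ← pow_mul, mul_comm N (N + 1)]
    refine mul_le_mul_of_nonneg_right ?_ (by positivity)
    have : (2 * k) ^ (N + 1) ≤ (2 * k) ^ 1 :=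
      pow_le_pow_of_le_one (by positivity) (by linarith) (by omega)
    linarith
  have h4 : 2 * k * (k / W) ^ N ≤ m := le_of_pow_le_pow_left₀ (by omega) hm0.le h3
  have h5 : e * W = k * (k / W) ^ N := by rw [he, pow_succ]; field_simp
  have h6 : k * (k / W) ^ N ≤ eval (Sum.elim a z) F := by
    have := hm1 z
    have : e * sq z ≤ e * W := mul_le_mul_of_nonneg_left (by linarith) he0.le
    linarith
  have h7 : k ^ (N + 1) = k * (k / W) ^ N * W ^ N := by rw [div_pow, pow_succ']; field_simp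
  rw [h7]
  exact mul_le_mul_of_nonneg_right h6 (by positivity)

theorem eval_aeval_poly {σ : Type} (g : σ → Polynomial ℝ) (x : ℝ) (Q : MvPolynomial σ ℝ) :
    (aeval g Q).eval x = eval (fun i => (g i).eval x) Q := by
  induction Q using MvPolynomial.induction_on with
  | C a => simp
  | add p q hp hq => rw [map_add, map_add, Polynomial.eval_add, hp, hq]
  | mul_X p i hp => rw [map_mul, map_mul, Polynomial.eval_mul, hp, aeval_X, eval_X]

theorem good_small {α : Type} (q : MvPolynomial (α ⊕ Two) ℝ) (hq : q ≠ 0) :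
    ∃ e1 > 0, ∀ e, 0 < e → e < e1 → ∃ a t, eval (Sum.elim a (ev2 e t)) q ≠ 0 := by
  obtain ⟨x, hx⟩ : ∃ x, eval x q ≠ 0 := by
    by_contra h
    push Not at h
    exact hq (MvPolynomial.funext (by simpa using h))
  let g : α ⊕ Two → Polynomial ℝ := Sum.elim (fun i => .C (x (.inl i)))
    fun o => o.elim .X fun _ => .C (x (.inr (some none)))
  have hev : ∀ e, (aeval g q).eval e =
      eval (Sum.elim (fun i => x (.inl i)) (ev2 e (x (.inr (some none))))) q := fun e => by
    rw [eval_aeval_poly]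
    congr 2
    funext i
    rcases i with i | _ | _ | o
    · simp [g]
    · simp [g]
    · simp [g]
    · exact o.elim
  have h0 : aeval g q ≠ 0 := fun h => hx (by
    have := hev (x (.inr none))
    rw [h, Polynomial.eval_zero] at this
    rw [this]
    congr 2
    funext i
    rcases i with i | _ | _ | o
    · rfl
    · rfl
    · rfl
    · exact o.elim)
  have hfin := ((Polynomial.finite_setOfPred_isRoot h0).sdiff (t := {0})).isClosed.isOpen_compl
  obtain ⟨r, hr, hb⟩ := Metric.isOpen_iff.1 hfin 0 (by simp)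
  refine ⟨r, hr, fun e he her => ⟨fun i => x (.inl i), x (.inr (some none)), fun h => ?_⟩⟩
  rw [← hev] at h
  exact hb (a := e) (by simpa [abs_of_pos he] using her) ⟨h, he.ne'⟩

/-- Approximate zeros of controlled size, uniformly over the cube. -/
theorem loj2 {α β : Type} [Fintype α] [Fintype β] (H : MvPolynomial (α ⊕ β) ℝ) {d N : ℕ}
    (hd : H.totalDegree ≤ d) (h0 : ∀ x, 0 ≤ eval x H)
    (hN : B2 (Fintype.card α) (B1 (Fintype.card α + Fintype.card β) d) ≤ N)
    (hz : ∀ a, ‖a‖ ≤ 1 → ∃ z, eval (Sum.elim a z) H = 0) :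
    ∃ C : ℝ, ∀ a, ‖a‖ ≤ 1 → ∀ c : ℝ, 0 < c → c ≤ 1 →
      ∃ z, c ^ N * sq z ≤ C ∧ eval (Sum.elim a z) H ≤ c := by
  obtain ⟨q1, hq1, hd1, he1⟩ := stage1 H hd h0
  obtain ⟨q2, hq2, hd2, he2⟩ := stage2 q1 hd1
  obtain ⟨c0, hc0, δ, hδ, hgr⟩ := growth q2 hq2 (hd2.trans hN) 1
  obtain ⟨e1, he10, hgood⟩ := good_small q1 hq1
  obtain ⟨T, hT⟩ := (isCompact_closedBall (0 : α → ℝ) 1).elim_finite_subcover
    (fun z : β → ℝ => {a | eval (Sum.elim a z) H < δ / 2})
    (fun z => isOpen_lt (continuous_evalSum H continuous_id continuous_const) continuous_const)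
    (fun a ha => by
      obtain ⟨z, hz⟩ := hz a (mem_closedBall_zero_iff.1 ha)
      exact Set.mem_iUnion.2 ⟨z, by change _ < δ / 2; rw [hz]; positivity⟩)
  set R := ∑ z ∈ T, sq z with hR
  have hR0 : 0 ≤ R := Finset.sum_nonneg fun z _ => sq_nonneg' z
  set κ := min (min 1 (e1 / 2)) (min (δ / (2 * (R + 1))) (c0 / 2)) with hκ
  have hκ0 : 0 < κ := by positivity
  have hκ1 : κ ≤ 1 := (min_le_left _ _).trans (min_le_left _ _)
  have hκ2 : κ ≤ e1 / 2 := (min_le_left _ _).trans (min_le_right _ _)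
  have hκ3 : κ * (2 * (R + 1)) ≤ δ :=
    (le_div_iff₀ (by positivity)).1 ((min_le_right _ _).trans (min_le_left _ _))
  have hκ4 : κ ≤ c0 / 2 := (min_le_right _ _).trans (min_le_right _ _)
  refine ⟨1 / κ, fun a ha c hc hc1 => ?_⟩
  have hcN : c ^ N ≤ 1 := pow_le_one₀ hc.le hc1
  set e := κ * c ^ N with he
  have he0 : 0 < e := by positivity
  have heκ : e ≤ κ := mul_le_of_le_one_right hκ0.le hcN
  let h : (α → ℝ) → ℝ := fun a => sInf ((fun z => eval (Sum.elim a z) H + e * sq z) ''
    closedBall (0 : β → ℝ) (1 + δ / e))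
  have hh : Continuous h := (isCompact_closedBall _ _).continuous_sInf
    ((continuous_evalSum H continuous_fst continuous_snd).add
      (continuous_const.mul (continuous_sq continuous_snd)))
  have hmin : ∀ a, ‖a‖ ≤ 1 → IsMinVal H a e (h a) ∧ h a < δ := fun a ha => by
    obtain ⟨t, ht, z, hz⟩ := exists_isMinVal h0 a he0
    obtain ⟨z', hz', hlt⟩ := Set.mem_iUnion₂.1 (hT (mem_closedBall_zero_iff.2 ha))
    have h1 : sq z' ≤ R :=
      Finset.single_le_sum (f := fun z => sq z) (fun z _ => sq_nonneg' z) hz'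
    have h2 : t < δ := by
      have h3 := ht z'
      have h4 : eval (Sum.elim a z') H < δ / 2 := hlt
      have h5 := sq_nonneg' z'
      nlinarith
    have h3 : h a = t := IsLeast.csInf_eq ⟨⟨z, mem_closedBall_zero_iff.2 ((norm_le_sq z).trans (by
      have h4 := h0 (Sum.elim a z)
      have : sq z ≤ δ / e := by rw [le_div_iff₀ he0]; linarith
      linarith)), hz⟩, by rintro _ ⟨z', -, rfl⟩; exact ht z'⟩
    rw [h3]
    exact ⟨⟨ht, z, hz⟩, h2⟩
  obtain ⟨a0, ha0, hmax⟩ := (isCompact_closedBall (0 : α → ℝ) 1).exists_isMaxOn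
    ⟨0, mem_closedBall_self zero_le_one⟩ hh.continuousOn
  have ha0' := mem_closedBall_zero_iff.1 ha0
  have hrel := he2 e (h a0) h hh (hgood e he0 (by linarith))
    (fun a ha => he1 a e _ he0 (hmin a ha).1) (fun a ha => hmax (mem_closedBall_zero_iff.2 ha))
    ⟨a0, ha0', rfl⟩
  have hg : h a0 ≤ c := by
    by_contra hlt
    push Not at hlt
    have h1 := hgr e (h a0) he0 (by linarith) (by linarith) (hmin a0 ha0').2 hrel
    have h2 : c ^ N ≤ h a0 ^ N := pow_le_pow_left₀ hc.le hlt.le N
    have h3 : 0 < c ^ N := by positivity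
    nlinarith
  obtain ⟨z, hz⟩ := (hmin a ha).1.2
  have h1 : h a ≤ h a0 := hmax (mem_closedBall_zero_iff.2 ha)
  have h2 := h0 (Sum.elim a z)
  have h3 : 0 ≤ e * sq z := mul_nonneg he0.le (sq_nonneg' z)
  refine ⟨z, ?_, by linarith⟩
  rw [le_div_iff₀ hκ0]
  nlinarith

end Pool.Agent.Lib.MP_1b4d2d_lc
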