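import Pool.Agent.Lib.MP_1b4d2d_lc.Hard

/-!
The translated Hausdorff distance problem lies in `∃∀∃ℝ`.
-/

set_option autoImplicit false

namespace Pool.Agent.Lib.MP_1b4d2d_lc

open Pool.Agent.Shared.PolyTime Metric

/-- A block of `n` variables read as a point. -/
noncomputable def blk (n : ℕ) (ρ : ℕ → ℝ) (o : ℕ) : EuclideanSpace ℝ (Fin n) :=
  WithLp.toLp 2 fun i => ρ (o + i)

theorem holds_blk (n : ℕ) (ρ : ℕ → ℝ) (o : ℕ) (φ : Fm) :
    (φ.sub o n).Holds ρ ↔ blk n ρ o ∈ φ.set n := by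
  rw [Fm.holds_sub]
  refine iff_of_eq (congrArg (φ.Holds ·) (funext fun i => ?_))
  by_cases h : i < n <;> simp [ext, h, blk]

/-- The distance condition with cleared denominators. -/
def near (n o o' : ℕ) (d : ℚ) : Fm :=
  .lt (.mul (sqr (.cst d.den)) (sumTm ((List.range n).map fun i =>
    sqr (dif (.add (.var (o + i)) (.var i)) (.var (o' + i))))))
    (sqr (.add (.cst d.num) (.mul (.cst d.den) (.var (n + n)))))

theorem holds_near (n o o' : ℕ) {d : ℚ} (hd : 0 ≤ d) (ρ : ℕ → ℝ) (he : 0 < ρ (n + n)) :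
    (near n o o' d).Holds ρ ↔ dist (blk n ρ o + blk n ρ 0) (blk n ρ o') < d + ρ (n + n) := by
  have h1 : (0 : ℝ) < d.den := by exact_mod_cast d.den_pos
  have h2 : (d.num : ℝ) = d.den * (d : ℝ) := by exact_mod_cast (Rat.den_mul_eq_num d).symm
  have h3 : (0 : ℝ) ≤ d := by exact_mod_cast hd
  simp only [near, Fm.Holds, Tm.eval, eval_sqr, eval_sumTm, eval_dif, Int.cast_natCast]
  rw [← sq_lt_sq₀ dist_nonneg (by positivity), EuclideanSpace.dist_sq_eq, h2, ← mul_add, mul_pow,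
    mul_lt_mul_iff_right₀ (by positivity), ← Fin.sum_univ_eq_sum_range
      (fun i => (ρ (o + i) + ρ i - ρ (o' + i)) ^ 2)]
  simp [blk, Real.dist_eq]

/-- The matrix of the sentence. -/
def mat (n : ℕ) (A B : Fm) (d : ℚ) : Fm :=
  .and (Fm.le (.cst 0) (.cst d.num)) (.or (.not (.lt (.cst 0) (.var (n + n))))
    (.and (.or (.not (A.sub n n)) (.and (B.sub (n + (n + 1)) n) (near n n (n + (n + 1)) d)))
      (.or (.not (B.sub n n)) (.and (A.sub (n + (n + 1) + n) n) (near n (n + (n + 1) + n) n d)))))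

theorem holds_mat (n : ℕ) (A B : Fm) (d : ℚ) (ρ : ℕ → ℝ) : (mat n A B d).Holds ρ ↔ 0 ≤ d ∧
    (0 < ρ (n + n) → (blk n ρ n ∈ A.set n → blk n ρ (n + (n + 1)) ∈ B.set n ∧
      dist (blk n ρ n + blk n ρ 0) (blk n ρ (n + (n + 1))) < d + ρ (n + n)) ∧
    (blk n ρ n ∈ B.set n → blk n ρ (n + (n + 1) + n) ∈ A.set n ∧
      dist (blk n ρ (n + (n + 1) + n) + blk n ρ 0) (blk n ρ n) < d + ρ (n + n))) := by
  simp only [mat, Fm.Holds, holds_le, Tm.eval, holds_blk, Int.cast_zero, Int.cast_nonneg_iff,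
    Rat.num_nonneg, ← imp_iff_not_or]
  exact and_congr_right fun hd => imp_congr_right fun he => by
    rw [holds_near _ _ _ hd _ he, holds_near _ _ _ hd _ he]

theorem mem_iff {n b c : ℕ} (hb : b = n + 1) (hc : c = n + n) (A B : Fm) (d : ℚ) :
    (0 ≤ d ∧ ∃ v : EuclideanSpace ℝ (Fin n),
      hausdorffEDist ((fun p => p + v) '' A.set n) (B.set n) ≤ ENNReal.ofReal (d : ℝ)) ↔
    ∃ x : Fin n → ℝ, ∀ y : Fin b → ℝ, ∃ z : Fin c → ℝ,
      (mat n A B d).Holds (ext (Fin.append (Fin.append x y) z)) := by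
  subst hb hc
  have e0 : ∀ (x : Fin n → ℝ) (y : Fin (n + 1) → ℝ) (z : Fin (n + n) → ℝ),
      blk n (ext (Fin.append (Fin.append x y) z)) 0 = WithLp.toLp 2 x := fun x y z => by
    ext i
    simp only [blk, ext_append]
    rw [if_pos (by omega), if_pos (by omega), zero_add, ext_coe]
  have e1 : ∀ (x : Fin n → ℝ) (y : Fin (n + 1) → ℝ) (z : Fin (n + n) → ℝ),
      blk n (ext (Fin.append (Fin.append x y) z)) n = blk n (ext y) 0 := fun x y z => by
    ext i
    simp only [blk, ext_append]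
    rw [if_pos (by omega), if_neg (by omega), zero_add, Nat.add_sub_cancel_left]
  have e2 : ∀ (x : Fin n → ℝ) (y : Fin (n + 1) → ℝ) (z : Fin (n + n) → ℝ),
      ext (Fin.append (Fin.append x y) z) (n + n) = ext y n := fun x y z => by
    simp only [ext_append]
    rw [if_pos (by omega), if_neg (by omega), Nat.add_sub_cancel_left]
  have e3 : ∀ (x : Fin n → ℝ) (y : Fin (n + 1) → ℝ) (q q' : EuclideanSpace ℝ (Fin n)),
      blk n (ext (Fin.append (Fin.append x y) (Fin.append q.ofLp q'.ofLp))) (n + (n + 1)) = q ∧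
      blk n (ext (Fin.append (Fin.append x y) (Fin.append q.ofLp q'.ofLp))) (n + (n + 1) + n) =
        q' := fun x y q q' => by
    constructor <;> ext i <;> simp only [blk, ext_append]
    · rw [if_neg (by omega), Nat.add_sub_cancel_left, if_pos i.2, ext_coe]
    · rw [if_neg (by omega), if_neg (by omega), show n + (n + 1) + n + i - (n + (n + 1)) - n = i by
        omega, ext_coe]
  have e4 : ∀ (p : EuclideanSpace ℝ (Fin n)) (e : ℝ), ∃ y : Fin (n + 1) → ℝ,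
      blk n (ext y) 0 = p ∧ ext y n = e := fun p e => by
    refine ⟨Fin.append p.ofLp fun _ : Fin 1 => e, ?_, ?_⟩
    · ext i
      simp [blk, ext_append]
    · rw [ext_append, if_neg (by omega), ext_lt _ (by omega)]
  simp only [holds_mat, e0, e1, e2]
  constructor
  · rintro ⟨hd, v, hv⟩
    obtain ⟨h1, h2⟩ := (hausdorff_le_iff (by exact_mod_cast hd)).1 hv
    refine ⟨v.ofLp, fun y => ?_⟩
    obtain ⟨q, hq⟩ : ∃ q, 0 < ext y n → blk n (ext y) 0 ∈ A.set n →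
        q ∈ B.set n ∧ dist (blk n (ext y) 0 + v) q < d + ext y n := by
      by_cases h : 0 < ext y n ∧ blk n (ext y) 0 ∈ A.set n
      · obtain ⟨q, hq⟩ := h1 _ ⟨_, h.2, rfl⟩ _ h.1
        exact ⟨q, fun _ _ => hq⟩
      · exact ⟨0, fun h1 h2 => absurd ⟨h1, h2⟩ h⟩
    obtain ⟨q', hq'⟩ : ∃ q', 0 < ext y n → blk n (ext y) 0 ∈ B.set n →
        q' ∈ A.set n ∧ dist (q' + v) (blk n (ext y) 0) < d + ext y n := by
      by_cases h : 0 < ext y n ∧ blk n (ext y) 0 ∈ B.set n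
      · obtain ⟨_, ⟨q, hq, rfl⟩, hq'⟩ := h2 _ h.2 _ h.1
        exact ⟨q, fun _ _ => ⟨hq, hq'⟩⟩
      · exact ⟨0, fun h1 h2 => absurd ⟨h1, h2⟩ h⟩
    refine ⟨Fin.append q.ofLp q'.ofLp, hd, fun he => ?_⟩
    rw [(e3 _ _ _ _).1, (e3 _ _ _ _).2]
    exact ⟨hq he, hq' he⟩
  · rintro ⟨x, hx⟩
    have hd : 0 ≤ d := (hx 0).choose_spec.1
    refine ⟨hd, WithLp.toLp 2 x, (hausdorff_le_iff (by exact_mod_cast hd)).2 ⟨?_, ?_⟩⟩
    · rintro _ ⟨p, hp, rfl⟩ e he
      obtain ⟨y, rfl, rfl⟩ := e4 p e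
      obtain ⟨z, -, hz⟩ := hx y
      exact ⟨_, (hz he).1 hp⟩
    · intro p hp e he
      obtain ⟨y, rfl, rfl⟩ := e4 p e
      obtain ⟨z, -, hz⟩ := hx y
      exact ⟨_, ⟨_, ((hz he).2 hp).1, rfl⟩, ((hz he).2 hp).2⟩

theorem thd_mem : InEAER THD := by
  refine ⟨fun I => (I.1, true :: I.1, I.1 ++ I.1, mat I.1.length I.2.1 I.2.2.1 I.2.2.2),
    PT.isPolyTime (by unfold mat near; fun_prop), fun I => ?_⟩
  exact mem_iff rfl List.length_append _ _ _

end Pool.Agent.Lib.MP_1b4d2d_lc
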