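import Mathlib

/-!
Algebraic relations of singly exponential degree (Perron's dimension count), passage to the
limit in a relation, and growth of the solutions of a relation in two variables.
-/

set_option autoImplicit false

namespace Pool.Agent.Lib.MP_1b4d2d_lc

open MvPolynomial

theorem deg_aeval {σ τ : Type} (f : σ → MvPolynomial τ ℝ) {d : ℕ}
    (hf : ∀ i, (f i).totalDegree ≤ d) (Q : MvPolynomial σ ℝ) :
    (aeval f Q).totalDegree ≤ Q.totalDegree * d := by
  classical
  conv_lhs => rw [Q.as_sum, map_sum]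
  refine totalDegree_finsetSum_le fun s hs => ?_
  rw [aeval_monomial]
  refine (totalDegree_mul _ _).trans ?_
  have h1 : (algebraMap ℝ (MvPolynomial τ ℝ) (coeff s Q)).totalDegree = 0 := totalDegree_C _
  have h2 : (s.prod fun i k => f i ^ k).totalDegree ≤ (s.sum fun _ e => e) * d := by
    unfold Finsupp.prod Finsupp.sum
    refine (totalDegree_finsetProd _ _).trans ?_
    rw [Finset.sum_mul]
    exact Finset.sum_le_sum fun i _ => (totalDegree_pow _ _).trans (Nat.mul_le_mul_left _ (hf i))
  have h3 := Nat.mul_le_mul_right d (le_totalDegree hs)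
  omega

theorem deg_pderiv {σ : Type} (i : σ) (p : MvPolynomial σ ℝ) :
    (pderiv i p).totalDegree ≤ p.totalDegree := by
  classical
  conv_lhs => rw [p.as_sum, map_sum]
  refine totalDegree_finsetSum_le fun s hs => ?_
  rw [pderiv_monomial]
  refine (totalDegree_monomial_le _ _).trans (le_trans ?_ (le_totalDegree hs))
  have : s - Finsupp.single i 1 ≤ s := tsub_le_self
  exact Finsupp.sum_le_sum_index this (fun _ _ => monotone_id) (fun _ _ => rfl)

theorem eval_aeval' {σ τ : Type} (f : σ → MvPolynomial τ ℝ) (x : τ → ℝ) (Q : MvPolynomial σ ℝ) :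
    eval x (aeval f Q) = eval (fun i => eval x (f i)) Q := by
  induction Q using MvPolynomial.induction_on with
  | C a => simp
  | add p q hp hq => rw [map_add, map_add, map_add, hp, hq]
  | mul_X p i hp => rw [map_mul, map_mul, map_mul, hp, aeval_X, eval_X]

/-- Perron: `r + 1` polynomials of degree at most `d` in `r` variables satisfy a relation of
degree at most `((r + 1) d) ^ (r + 1)`. -/
theorem perron {σ ι : Type} [Fintype σ] [Fintype ι] (hc : Fintype.card ι = Fintype.card σ + 1)
    (f : ι → MvPolynomial σ ℝ) {d : ℕ} (hd : 1 ≤ d) (hf : ∀ i, (f i).totalDegree ≤ d) :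
    ∃ Q : MvPolynomial ι ℝ, Q ≠ 0 ∧ Q.totalDegree ≤ (Fintype.card ι * d) ^ Fintype.card ι ∧
      ∀ x : σ → ℝ, eval (fun i => eval x (f i)) Q = 0 := by
  classical
  set r := Fintype.card σ with hr
  set D := ((r + 1) * d) ^ r with hD
  set M := (r + 1) * D * d with hM
  let e : (ι → Fin (D + 1)) → (ι →₀ ℕ) := fun a => Finsupp.equivFunOnFinite.symm fun i => (a i : ℕ)
  have he : Function.Injective e := fun a b h => by
    funext i
    have := congrArg (fun s : ι →₀ ℕ => s i) h
    exact Fin.ext (by simpa [e] using this)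
  let mk : ((ι → Fin (D + 1)) → ℝ) →ₗ[ℝ] MvPolynomial ι ℝ :=
    ∑ a : ι → Fin (D + 1), (monomial (e a)).comp (LinearMap.proj a)
  have hmk : ∀ c, mk c = ∑ a, monomial (e a) (c a) := fun c => by simp [mk]
  let co : MvPolynomial σ ℝ →ₗ[ℝ] ((σ → Fin (M + 1)) → ℝ) :=
    LinearMap.pi fun b => lcoeff ℝ (Finsupp.equivFunOnFinite.symm fun i => (b i : ℕ))
  let L := co ∘ₗ (aeval f).toLinearMap ∘ₗ mk
  have hlt : Module.finrank ℝ ((σ → Fin (M + 1)) → ℝ) <
      Module.finrank ℝ ((ι → Fin (D + 1)) → ℝ) := by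
    simp only [Module.finrank_fintype_fun_eq_card, Fintype.card_fun, Fintype.card_fin, hc, ← hr]
    have h1 : M + 1 ≤ (r + 1) * d * (D + 1) := by
      have : 1 ≤ (r + 1) * d := Nat.mul_pos (by omega) hd
      rw [hM]; nlinarith
    calc (M + 1) ^ r ≤ ((r + 1) * d * (D + 1)) ^ r := Nat.pow_le_pow_left h1 r
      _ = D * (D + 1) ^ r := by rw [mul_pow]
      _ < (D + 1) * (D + 1) ^ r := Nat.mul_lt_mul_of_pos_right (by omega) (by positivity)
      _ = (D + 1) ^ (r + 1) := by ring
  obtain ⟨c, hc0, hcne⟩ := (Submodule.ne_bot_iff _).1 (L.ker_ne_bot_of_finrank_lt hlt)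
  have hdeg : (mk c).totalDegree ≤ (r + 1) * D := by
    rw [hmk]
    refine totalDegree_finsetSum_le fun a _ => (totalDegree_monomial_le _ _).trans ?_
    rw [Finsupp.sum_fintype _ _ (fun _ => rfl)]
    calc ∑ i, id (e a i) ≤ ∑ _i : ι, D := Finset.sum_le_sum fun i _ => by
          have := (a i).2; simp [e]; omega
      _ = (r + 1) * D := by simp [hc]
  refine ⟨mk c, fun h => hcne ?_, ?_, fun x => ?_⟩
  · funext a
    have := congrArg (coeff (e a)) h
    rw [hmk, coeff_sum] at this
    simpa [coeff_monomial, he.eq_iff] using this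
  · refine hdeg.trans ?_
    rw [hc, pow_succ, ← hD]
    nlinarith
  · rw [← eval_aeval']
    suffices h : aeval f (mk c) = 0 by rw [h, map_zero]
    have hP : (aeval f (mk c)).totalDegree ≤ M :=
      (deg_aeval f hf _).trans (Nat.mul_le_mul_right d hdeg)
    ext m
    by_contra hm
    have hm' : m ∈ (aeval f (mk c)).support := by simpa using hm
    have hb : ∀ i, m i < M + 1 := fun i =>
      Nat.lt_succ_of_le (((monomial_le_degreeOf i hm').trans (degreeOf_le_totalDegree _ i)).trans hP)
    have := congrFun (LinearMap.mem_ker.1 hc0) fun i => ⟨m i, hb i⟩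
    apply hm
    simpa [L, co] using this

/-- Lowest order term in one variable. -/
theorem split {τ : Type} (R : MvPolynomial (Option τ) ℝ) (hR : R ≠ 0) :
    ∃ (k : ℕ) (q : MvPolynomial τ ℝ) (R2 : MvPolynomial (Option τ) ℝ), k ≤ R.totalDegree ∧ q ≠ 0 ∧
      q.totalDegree ≤ R.totalDegree ∧ ∀ (η : ℝ) (T : τ → ℝ), eval (fun o => o.elim η T) R =
        η ^ k * (eval T q + η * eval (fun o => o.elim η T) R2) := by
  set P := optionEquivLeft ℝ τ R with hP
  have hP0 : P ≠ 0 := by simpa [hP] using hR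
  obtain ⟨P', hP'⟩ : Polynomial.X ^ P.natTrailingDegree ∣ P :=
    Polynomial.X_pow_dvd_iff.2 fun d hd => Polynomial.coeff_eq_zero_of_lt_natTrailingDegree hd
  have hc : P'.coeff 0 = P.coeff P.natTrailingDegree := by
    conv_rhs => rw [hP']
    have := Polynomial.coeff_X_pow_mul P' P.natTrailingDegree 0
    rw [zero_add] at this
    rw [← hP']
    conv_rhs => arg 1; rw [hP']
    exact this.symm
  refine ⟨P.natTrailingDegree, P'.coeff 0, (optionEquivLeft ℝ τ).symm P'.divX, ?_, ?_, ?_, ?_⟩
  · refine P.natTrailingDegree_le_natDegree.trans ?_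
    rw [hP, natDegree_optionEquivLeft]
    exact degreeOf_le_totalDegree _ _
  · rw [hc]
    exact Polynomial.trailingCoeff_nonzero_iff_nonzero.2 hP0
  · rw [hc]
    exact totalDegree_coeff_optionEquivLeft_le _ _ R _
  · intro η T
    rw [optionEquivLeft_elim_eval, optionEquivLeft_elim_eval, AlgEquiv.apply_symm_apply, ← hP]
    conv_lhs => rw [hP', ← Polynomial.divX_mul_X_add P']
    simp only [Polynomial.map_mul, Polynomial.map_pow, Polynomial.map_X, Polynomial.map_add,
      Polynomial.map_C, Polynomial.eval_mul, Polynomial.eval_pow, Polynomial.eval_X,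
      Polynomial.eval_add, Polynomial.eval_C]
    ring

theorem continuous_elim {τ : Type} (R : MvPolynomial (Option τ) ℝ) :
    Continuous fun p : ℝ × (τ → ℝ) => eval (fun o => Option.elim o p.1 p.2) R := by
  refine (MvPolynomial.continuous_eval R).comp (continuous_pi fun o => ?_)
  cases o with
  | none => exact continuous_fst
  | some t => exact (continuous_apply t).comp continuous_snd

/-- A relation survives when the parameters tend to zero in a suitable direction. -/
theorem limit {π τ : Type} [Fintype τ] (Q : MvPolynomial (π ⊕ τ) ℝ) (hQ : Q ≠ 0) :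
    ∃ (dir : π → ℝ) (q : MvPolynomial τ ℝ), (∀ i, 0 < dir i) ∧ q ≠ 0 ∧
      q.totalDegree ≤ Q.totalDegree ∧ ∀ T : τ → ℝ, (∀ δ > 0, ∃ η, 0 < η ∧ η < δ ∧ ∃ T',
        dist T' T < δ ∧ eval (Sum.elim (fun i => η * dir i) T') Q = 0) → eval T q = 0 := by
  obtain ⟨x, hx, hxQ⟩ : ∃ x ∈ Set.pi Set.univ (fun _ : π ⊕ τ => Set.Ioi (0 : ℝ)), eval x Q ≠ 0 := by
    by_contra h
    push Not at h
    exact hQ (funext_set _ (fun _ => Set.Ioi_infinite 0) (by simpa using h))
  let f : π ⊕ τ → MvPolynomial (Option τ) ℝ :=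
    Sum.elim (fun i => C (x (.inl i)) * X none) (fun t => X (some t))
  have hf : ∀ i, (f i).totalDegree ≤ 1 := by
    rintro (i | t)
    · exact (totalDegree_mul _ _).trans (by simp)
    · simp [f]
  have hev : ∀ (η : ℝ) (T : τ → ℝ), eval (fun o => Option.elim o η T) (aeval f Q) =
      eval (Sum.elim (fun i => η * x (.inl i)) T) Q := fun η T => by
    rw [eval_aeval']
    congr 2
    funext i
    rcases i with i | t <;> simp [f, mul_comm]
  have hR : aeval f Q ≠ 0 := fun h => hxQ (by
    have := hev 1 fun t => x (.inr t)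
    rw [h, map_zero] at this
    rw [this]
    congr 2
    funext i
    rcases i with i | t <;> simp)
  obtain ⟨k, q, R2, -, hq, hdeg, hs⟩ := split _ hR
  refine ⟨fun i => x (.inl i), q, fun i => hx _ trivial, hq,
    hdeg.trans (by simpa using deg_aeval f hf Q), fun T hT => ?_⟩
  have hcl : IsClosed {p : ℝ × (τ → ℝ) |
      eval p.2 q + p.1 * eval (fun o => Option.elim o p.1 p.2) R2 = 0} :=
    isClosed_eq (((MvPolynomial.continuous_eval q).comp continuous_snd).add
      (continuous_fst.mul (continuous_elim R2))) continuous_const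
  have : ((0 : ℝ), T) ∈ {p : ℝ × (τ → ℝ) |
      eval p.2 q + p.1 * eval (fun o => Option.elim o p.1 p.2) R2 = 0} := by
    rw [← hcl.closure_eq, Metric.mem_closure_iff]
    intro δ hδ
    obtain ⟨η, h0, h1, T', h2, h3⟩ := hT δ hδ
    refine ⟨(η, T'), ?_, ?_⟩
    · rw [← hev, hs] at h3
      exact (mul_eq_zero.1 h3).resolve_left (pow_ne_zero _ h0.ne')
    · rw [Prod.dist_eq, max_lt_iff]
      exact ⟨by simpa [Real.dist_eq, abs_of_pos h0] using h1, by rwa [dist_comm]⟩
  simpa using this

/-- Index type for two variables. -/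
abbrev Two := Option (Option Empty)

/-- The point with coordinates `e` and `t`. -/
def ev2 (e t : ℝ) : Two → ℝ := fun o => o.elim e fun o' => o'.elim t Empty.elim

@[simp] theorem ev2_none (e t : ℝ) : ev2 e t none = e := rfl
@[simp] theorem ev2_some (e t : ℝ) : ev2 e t (some none) = t := rfl

theorem dist_ev2 (e t t' : ℝ) : dist (ev2 e t) (ev2 e t') ≤ |t - t'| := by
  refine (dist_pi_le_iff (abs_nonneg _)).2 ?_
  rintro (_ | _ | x)
  · simp
  · simp [Real.dist_eq]
  · exact x.elim

/-- Growth of the solutions of a nonzero relation near the origin. -/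
theorem growth (q : MvPolynomial Two ℝ) (hq : q ≠ 0) {D : ℕ} (hD : q.totalDegree ≤ D) (E : ℝ) :
    ∃ c > 0, ∃ δ > 0, ∀ e t : ℝ, 0 < e → e ≤ E → 0 < t → t < δ → eval (ev2 e t) q = 0 →
      c * t ^ D ≤ e := by
  obtain ⟨k, q0, R2, -, hq0, hd0, hs⟩ := split q hq
  obtain ⟨j, q1, R3, hj, hq1, -, hs'⟩ := split q0 hq0
  set c0 := eval (Empty.elim : Empty → ℝ) q1 with hc0
  have hc : c0 ≠ 0 := fun h => hq1 (MvPolynomial.funext fun x => by
    have : x = Empty.elim := funext fun e => e.elim
    rw [this, ← hc0, h, map_zero])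
  have c2 : Continuous fun p : ℝ × ℝ => eval (ev2 p.1 p.2) R2 := by
    refine (MvPolynomial.continuous_eval R2).comp (continuous_pi ?_)
    rintro (_ | _ | x)
    · exact continuous_fst
    · exact continuous_snd
    · exact x.elim
  have c3 : Continuous fun t : ℝ => eval (fun o => Option.elim o t Empty.elim) R3 :=
    (continuous_elim R3).comp (f := fun t : ℝ => (t, (Empty.elim : Empty → ℝ))) (by fun_prop)
  obtain ⟨B, hB⟩ := (isCompact_Icc.prod isCompact_Icc :
    IsCompact (Set.Icc (0 : ℝ) E ×ˢ Set.Icc (0 : ℝ) 1)).exists_bound_of_continuousOn c2.continuousOn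
  obtain ⟨B', hB'⟩ := (isCompact_Icc : IsCompact (Set.Icc (0 : ℝ) 1)).exists_bound_of_continuousOn
    c3.continuousOn
  have hc' : 0 < |c0| := abs_pos.2 hc
  refine ⟨|c0| / (2 * (|B| + 1)), by positivity, min 1 (|c0| / (2 * (|B'| + 1))), by positivity,
    fun e t he heE ht htδ h => ?_⟩
  have ht1 : t < 1 := htδ.trans_le (min_le_left _ _)
  have ht2 : t * (2 * (|B'| + 1)) < |c0| :=
    (lt_div_iff₀ (by positivity)).1 (htδ.trans_le (min_le_right _ _))
  have h1 := hs e fun o' => o'.elim t Empty.elim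
  change eval (ev2 e t) q = e ^ k * (_ + e * eval (ev2 e t) R2) at h1
  rw [h, hs'] at h1
  have h2 := (mul_eq_zero.1 h1.symm).resolve_left (pow_ne_zero _ he.ne')
  have b2 : |eval (ev2 e t) R2| ≤ |B| := (hB (e, t) ⟨⟨he.le, heE⟩, ⟨ht.le, ht1.le⟩⟩).trans (le_abs_self B)
  have b3 : |eval (fun o => Option.elim o t Empty.elim) R3| ≤ |B'| :=
    (hB' t ⟨ht.le, ht1.le⟩).trans (le_abs_self B')
  rw [← hc0] at h2
  generalize eval (ev2 e t) R2 = r2 at *
  generalize eval (fun o => Option.elim o t Empty.elim) R3 = r3 at *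
  have h3 : |c0| / 2 ≤ |c0 + t * r3| := by
    have a1 := abs_add_le (c0 + t * r3) (-(t * r3))
    have a2 : |t * r3| ≤ t * |B'| := by
      rw [abs_mul, abs_of_pos ht]; exact mul_le_mul_of_nonneg_left b3 ht.le
    simp only [add_neg_cancel_right, abs_neg] at a1
    nlinarith
  have h4 : t ^ j * |c0 + t * r3| = e * |r2| := by
    have : t ^ j * (c0 + t * r3) = -(e * r2) := by linarith
    have := congrArg abs this
    rwa [abs_mul, abs_neg, abs_mul, abs_of_pos he, abs_of_pos (pow_pos ht j)] at this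
  have h5 : t ^ D ≤ t ^ j := pow_le_pow_of_le_one ht.le ht1.le (by omega)
  rw [div_mul_eq_mul_div, div_le_iff₀ (by positivity)]
  have h6 : t ^ D * (|c0| / 2) ≤ t ^ j * |c0 + t * r3| :=
    mul_le_mul h5 h3 (by positivity) (by positivity)
  have h7 : e * |r2| ≤ e * |B| := mul_le_mul_of_nonneg_left b2 he.le
  nlinarith

end Pool.Agent.Lib.MP_1b4d2d_lc
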