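import Pool.Agent.Lib.MP_1b4d2d_lc.Perron

/-!
Values of penalised minima and of maxima of such minima satisfy algebraic relations of singly
exponential degree.
-/

set_option autoImplicit false

namespace Pool.Agent.Lib.MP_1b4d2d_lc

open MvPolynomial Metric

theorem hasDerivAt_update {σ : Type} [DecidableEq σ] (p : MvPolynomial σ ℝ) (x : σ → ℝ) (i : σ) :
    HasDerivAt (fun s => eval (Function.update x i s) p) (eval x (pderiv i p)) (x i) := by
  induction p using MvPolynomial.induction_on with
  | C a => simpa using hasDerivAt_const (x i) a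
  | add p q hp hq =>
    simp only [map_add]
    exact hp.add hq
  | mul_X p j hp =>
    have h2 : HasDerivAt (fun s => Function.update x i s j) (if j = i then 1 else 0) (x i) := by
      by_cases h : j = i
      · subst h; simpa using hasDerivAt_id' (x j)
      · simpa [h] using hasDerivAt_const (x i) (x j)
    have := hp.mul h2
    simp only [Function.update_eq_self] at this
    have e : eval x (pderiv i (p * X j)) =
        eval x (pderiv i p) * x j + eval x p * if j = i then 1 else 0 := by
      by_cases h : j = i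
      · subst h; simp [mul_comm, add_comm]
      · simp [h, pderiv_X, mul_comm]
    simp only [map_mul, eval_X, e]
    exact this

/-- Squared Euclidean norm. -/
def sq {β : Type} [Fintype β] (z : β → ℝ) : ℝ := ∑ j, z j ^ 2

theorem sq_nonneg' {β : Type} [Fintype β] (z : β → ℝ) : 0 ≤ sq z :=
  Finset.sum_nonneg fun _ _ => sq_nonneg _

@[fun_prop] theorem continuous_sq {β X : Type} [Fintype β] [TopologicalSpace X] {f : X → β → ℝ}
    (hf : Continuous f) : Continuous fun x => sq (f x) := by
  unfold sq; fun_prop

theorem norm_le_sq {β : Type} [Fintype β] (z : β → ℝ) : ‖z‖ ≤ 1 + sq z := by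
  refine (pi_norm_le_iff_of_nonneg (by have := sq_nonneg' z; linarith)).2 fun j => ?_
  have h1 : z j ^ 2 ≤ sq z :=
    Finset.single_le_sum (f := fun j => z j ^ 2) (fun _ _ => sq_nonneg _) (Finset.mem_univ j)
  rw [Real.norm_eq_abs, abs_le]
  constructor <;> nlinarith [sq_nonneg (z j + 1), sq_nonneg (z j - 1)]

theorem exists_min {β : Type} [Fintype β] {Ψ : (β → ℝ) → ℝ} (hΨ : Continuous Ψ) {c K : ℝ}
    (hc : 0 < c) (h : ∀ z, c * sq z - K ≤ Ψ z) : ∃ z0, ∀ z, Ψ z0 ≤ Ψ z := by
  refine hΨ.exists_forall_le_of_isBounded 0 (isBounded_iff_forall_norm_le.2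
    ⟨1 + (Ψ 0 + K) / c, fun z hz => (norm_le_sq z).trans ?_⟩)
  have : sq z ≤ (Ψ 0 + K) / c := by
    rw [le_div_iff₀ hc]
    have := h z
    have hz' : Ψ z ≤ Ψ 0 := hz
    linarith
  linarith

theorem continuous_sumElim {α β X : Type} [TopologicalSpace X] {f : X → α → ℝ} {g : X → β → ℝ}
    (hf : Continuous f) (hg : Continuous g) : Continuous fun x => Sum.elim (f x) (g x) := by
  refine continuous_pi ?_
  rintro (i | j)
  · exact (continuous_apply i).comp hf
  · exact (continuous_apply j).comp hg

/-- `t` is the minimum of `H a z + e |z|²` over `z`. -/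
def IsMinVal {α β : Type} [Fintype β] (H : MvPolynomial (α ⊕ β) ℝ) (a : α → ℝ) (e t : ℝ) : Prop :=
  (∀ z, t ≤ eval (Sum.elim a z) H + e * sq z) ∧ ∃ z, eval (Sum.elim a z) H + e * sq z = t

theorem exists_isMinVal {α β : Type} [Fintype β] {H : MvPolynomial (α ⊕ β) ℝ}
    (h0 : ∀ x, 0 ≤ eval x H) (a : α → ℝ) {e : ℝ} (he : 0 < e) : ∃ t, IsMinVal H a e t := by
  have hc : Continuous fun z : β → ℝ => eval (Sum.elim a z) H + e * sq z :=
    ((MvPolynomial.continuous_eval H).comp
      (continuous_sumElim continuous_const continuous_id)).add (by fun_prop)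
  obtain ⟨z, hz⟩ := exists_min hc (K := 0) he fun z => by have := h0 (Sum.elim a z); linarith
  exact ⟨_, hz, z, rfl⟩

theorem stage1 {α β : Type} [Fintype α] [Fintype β] (H : MvPolynomial (α ⊕ β) ℝ) {d : ℕ}
    (hd : H.totalDegree ≤ d) (h0 : ∀ x, 0 ≤ eval x H) :
    ∃ q : MvPolynomial (α ⊕ Two) ℝ, q ≠ 0 ∧
      q.totalDegree ≤ ((Fintype.card α + Fintype.card β + 2) * (d + 3)) ^
        (Fintype.card α + Fintype.card β + 2) ∧
      ∀ a e t, 0 < e → IsMinVal H a e t → eval (Sum.elim a (ev2 e t)) q = 0 := by
  classical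
  let G : MvPolynomial (Option (α ⊕ β)) ℝ :=
    rename some H + X none * ∑ j : β, X (some (.inr j)) ^ 2
  have hG : G.totalDegree ≤ d + 3 := by
    refine (totalDegree_add _ _).trans (max_le ((totalDegree_rename_le _ _).trans (by omega)) ?_)
    refine (totalDegree_mul _ _).trans ?_
    have : (∑ j : β, (X (some (.inr j)) : MvPolynomial (Option (α ⊕ β)) ℝ) ^ 2).totalDegree ≤ 2 :=
      totalDegree_finsetSum_le fun j _ => by simp
    simp only [totalDegree_X]
    omega
  have hGev : ∀ (a : α → ℝ) (e : ℝ) (z : β → ℝ),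
      eval (fun o => Option.elim o e (Sum.elim a z)) G = eval (Sum.elim a z) H + e * sq z := by
    intro a e z
    simp [G, eval_rename, sq, Function.comp_def]
  let f : β ⊕ (α ⊕ Two) → MvPolynomial (Option (α ⊕ β)) ℝ :=
    Sum.elim (fun j => -pderiv (some (.inr j)) G)
      (Sum.elim (fun i => X (some (.inl i))) fun o => o.elim (X none) fun _ => G)
  have hf : ∀ i, (f i).totalDegree ≤ d + 3 := by
    rintro (j | i | _ | o)
    · simpa [f] using (deg_pderiv _ G).trans hG
    · simp [f]
    · simp [f]
    · simpa [f] using hG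
  have hcard : Fintype.card (β ⊕ (α ⊕ Two)) = Fintype.card α + Fintype.card β + 2 := by
    simp; omega
  obtain ⟨Q, hQ, hQd, hQe⟩ := perron (by rw [hcard]; simp) f (by omega) hf
  obtain ⟨dir, q, hdir, hq, hqd, hlim⟩ := limit Q hQ
  refine ⟨q, hq, hqd.trans (by rwa [hcard] at hQd), fun a e t he ⟨hmin, zs, hzs⟩ => hlim _ ?_⟩
  intro δ hδ
  have hdot : ∀ z : β → ℝ, -((sq dir + sq z) / 2) ≤ ∑ j, dir j * z j := fun z => by
    unfold sq
    rw [← Finset.sum_add_distrib, Finset.sum_div, ← Finset.sum_neg_distrib]
    exact Finset.sum_le_sum fun j _ => by nlinarith [sq_nonneg (dir j + z j)]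
  set ds := ∑ j, dir j * zs j with hds
  set K := |ds| + sq dir / 2 + (sq dir + 2 * (t / e + |ds|)) / 2 with hK
  set η := min e (δ / (2 * (|K| + 1))) with hη
  have hη0 : 0 < η := by positivity
  have hηe : η ≤ e := min_le_left _ _
  have hηK : η * (2 * (|K| + 1)) ≤ δ := (le_div_iff₀ (by positivity)).1 (min_le_right _ _)
  have hKK := le_abs_self K
  have hK0 := abs_nonneg K
  have hsd := sq_nonneg' dir
  have hc : Continuous fun z : β → ℝ => eval (Sum.elim a z) H + e * sq z + η * ∑ j, dir j * z j :=
    (((MvPolynomial.continuous_eval H).comp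
      (continuous_sumElim continuous_const continuous_id)).add (by fun_prop)).add (by fun_prop)
  have hlow : ∀ z, e / 2 * sq z - e / 2 * sq dir ≤
      eval (Sum.elim a z) H + e * sq z + η * ∑ j, dir j * z j := fun z => by
    have h1 := h0 (Sum.elim a z)
    have h2 := mul_le_mul_of_nonneg_left (hdot z) hη0.le
    have h3 := sq_nonneg' z
    nlinarith
  obtain ⟨z, hz⟩ := exists_min hc (half_pos he) hlow
  refine ⟨η, hη0, by nlinarith, Sum.elim a (ev2 e (eval (Sum.elim a z) H + e * sq z)), ?_, ?_⟩
  · have h1 := hmin z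
    have h2 := hz zs
    rw [hzs, ← hds] at h2
    have h3 := hlow z
    have h4 := mul_le_mul_of_nonneg_left (hdot z) hη0.le
    have h5 : η * ds ≤ η * |ds| := mul_le_mul_of_nonneg_left (le_abs_self ds) hη0.le
    have h6 : η * |ds| ≤ e * |ds| := mul_le_mul_of_nonneg_right hηe (abs_nonneg _)
    have h7 : sq z ≤ sq dir + 2 * (t / e + |ds|) := by
      have : e * sq z ≤ e * (sq dir + 2 * (t / e + |ds|)) := by
        have : e * (t / e) = t := by field_simp
        nlinarith
      exact le_of_mul_le_mul_left this he
    have h8 : eval (Sum.elim a z) H + e * sq z - t ≤ η * K := by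
      have := mul_le_mul_of_nonneg_left h7 hη0.le
      rw [hK]; nlinarith
    refine (dist_pi_lt_iff hδ).2 ?_
    rintro (i | o)
    · simpa using hδ
    · refine ((dist_le_pi_dist _ _ o).trans (dist_ev2 _ _ _)).trans_lt ?_
      rw [abs_of_nonneg (by linarith)]
      nlinarith
  · refine Eq.trans ?_ (hQe fun o => Option.elim o e (Sum.elim a z))
    congr 2
    funext i
    rcases i with j | i | _ | _ | o
    · have hD := (hasDerivAt_update G (fun o => Option.elim o e (Sum.elim a z))
        (some (.inr j))).add (((hasDerivAt_id (z j)).const_mul (dir j)).const_mul η)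
      have hloc : IsLocalMin (fun s => eval (Function.update (fun o => Option.elim o e
          (Sum.elim a z)) (some (.inr j)) s) G + η * (dir j * s)) (z j) := by
        refine Filter.Eventually.of_forall fun s => ?_
        have hu : ∀ s, Function.update (fun o => Option.elim o e (Sum.elim a z)) (some (.inr j)) s
            = fun o => Option.elim o e (Sum.elim a (Function.update z j s)) := fun s => by
          funext o
          rcases o with _ | i | j'
          · rw [Function.update_of_ne (by simp)]; rfl
          · rw [Function.update_of_ne (by simp)]; rfl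
          · by_cases h : j' = j
            · subst h; rw [Function.update_self]; exact (Function.update_self j' s z).symm
            · rw [Function.update_of_ne (by simpa using h)]
              exact (Function.update_of_ne h s z).symm
        have h1 := hz (Function.update z j s)
        have h2 : ∑ j', dir j' * Function.update z j s j' = ∑ j', dir j' * z j' +
            (dir j * s - dir j * z j) := by
          rw [← Finset.add_sum_erase _ _ (Finset.mem_univ j),
            ← Finset.add_sum_erase _ (fun j' => dir j' * z j') (Finset.mem_univ j)]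
          rw [Finset.sum_congr rfl (g := fun j' => dir j' * z j')
            fun j' hj' => by rw [Function.update_of_ne (Finset.ne_of_mem_erase hj')]]
          simp
          ring
        simp only [hu, hGev, Function.update_eq_self]
        rw [h2] at h1
        linarith
      have := hloc.hasDerivAt_eq_zero hD
      simp only [f, Sum.elim_inl, map_neg]
      linarith
    · simp [f]
    · simp [f]
    · simp [f, hGev]
    · exact o.elim

theorem exists_ne_zero_of_isOpen {τ : Type} [Fintype τ] (R : MvPolynomial τ ℝ) (hR : R ≠ 0)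
    {O : Set (τ → ℝ)} (hO : IsOpen O) (hne : O.Nonempty) : ∃ p ∈ O, eval p R ≠ 0 := by
  obtain ⟨x, hx⟩ := hne
  obtain ⟨r, hr, hb⟩ := Metric.isOpen_iff.1 hO x hx
  by_contra h
  push Not at h
  refine hR (funext_set (fun i => Set.Ioo (x i - r) (x i + r))
    (fun i => Set.Ioo_infinite (by linarith)) fun p hp => ?_)
  rw [map_zero]
  refine h p (hb ?_)
  rw [ball_pi _ hr]
  intro i hi
  change p i ∈ ball (x i) r
  rw [Real.ball_eq_Ioo]
  exact hp i hi

theorem stage2 {α : Type} [Fintype α] (q1 : MvPolynomial (α ⊕ Two) ℝ) {d : ℕ}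
    (hd : q1.totalDegree ≤ d) :
    ∃ q : MvPolynomial Two ℝ, q ≠ 0 ∧
      q.totalDegree ≤ ((Fintype.card α + 4) * (3 * (d + 2 * Fintype.card α) + 1)) ^
        (Fintype.card α + 4) ∧
      ∀ (e g : ℝ) (h : (α → ℝ) → ℝ), Continuous h → (∃ a t, eval (Sum.elim a (ev2 e t)) q1 ≠ 0) →
        (∀ a, ‖a‖ ≤ 1 → eval (Sum.elim a (ev2 e (h a))) q1 = 0) → (∀ a, ‖a‖ ≤ 1 → h a ≤ g) →
        (∃ a, ‖a‖ ≤ 1 ∧ h a = g) → eval (ev2 e g) q = 0 := by
  classical
  let W : MvPolynomial (α ⊕ Two) ℝ := q1 * ∏ i : α, (1 - X (.inl i) ^ 2)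
  have hW : W.totalDegree ≤ d + 2 * Fintype.card α := by
    refine (totalDegree_mul _ _).trans (add_le_add hd ((totalDegree_finsetProd _ _).trans ?_))
    calc ∑ i : α, (1 - X (.inl i) ^ 2 : MvPolynomial (α ⊕ Two) ℝ).totalDegree ≤ ∑ _i : α, 2 :=
          Finset.sum_le_sum fun i _ => (totalDegree_sub _ _).trans (by simp)
      _ = 2 * Fintype.card α := by simp [mul_comm]
  set d' := d + 2 * Fintype.card α with hd'
  let f : (α ⊕ Two) ⊕ Two → MvPolynomial (Option (α ⊕ Two)) ℝ :=
    Sum.elim (Sum.elim (fun i => X none * rename some (pderiv (.inl i) W))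
      (fun o => o.elim (C (-1 / 2) * X none * rename some W ^ 3)
        fun _ => X none * rename some (pderiv (.inr (some none)) W) - 1))
      fun o => X (some (.inr o))
  have hpd : ∀ i, (X none * rename some (pderiv i W) :
      MvPolynomial (Option (α ⊕ Two)) ℝ).totalDegree ≤ 3 * d' + 1 := fun i => by
    refine (totalDegree_mul _ _).trans ?_
    have := (totalDegree_rename_le (some : α ⊕ Two → _) _).trans ((deg_pderiv i W).trans hW)
    simp only [totalDegree_X]
    omega
  have hf : ∀ i, (f i).totalDegree ≤ 3 * d' + 1 := by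
    rintro ((i | _ | o) | o)
    · exact hpd _
    · refine (totalDegree_mul _ _).trans ?_
      have h1 := totalDegree_mul (C (-1 / 2 : ℝ)) (X (none : Option (α ⊕ Two)))
      have h2 := totalDegree_pow (rename (some : α ⊕ Two → _) W) 3
      have h3 := (totalDegree_rename_le (some : α ⊕ Two → _) W).trans hW
      simp only [totalDegree_C, totalDegree_X] at h1
      omega
    · exact (totalDegree_sub _ _).trans (max_le (hpd _) (by simp))
    · simp [f]
  have hcard : Fintype.card ((α ⊕ Two) ⊕ Two) = Fintype.card α + 4 := by simp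
  obtain ⟨Q, hQ, hQd, hQe⟩ := perron (by rw [hcard]; simp) f (by omega) hf
  obtain ⟨dir, q, hdir, hq, hqd, hlim⟩ := limit Q hQ
  refine ⟨q, hq, hqd.trans (by rwa [hcard] at hQd), ?_⟩
  rintro e g h hh ⟨an, tn, hn⟩ hgraph hle ⟨a0, ha0, hg⟩
  refine hlim _ fun δ hδ => ?_
  let J : (Option α → ℝ) → α ⊕ Two → ℝ := fun p => Sum.elim (fun i => p (some i)) (ev2 e (p none))
  have hJ : Continuous J := by
    refine continuous_sumElim (by fun_prop) (continuous_pi ?_)
    rintro (_ | _ | o)
    · exact continuous_const
    · exact continuous_apply none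
    · exact o.elim
  let w : (Option α → ℝ) → ℝ := fun p => eval (J p) W
  have hw : Continuous w := (MvPolynomial.continuous_eval W).comp hJ
  have hwe : ∀ p, w p = eval (J p) q1 * ∏ i, (1 - p (some i) ^ 2) := fun p => by
    simp [w, W, J]
  let A : (Option α → ℝ) → α → ℝ := fun p i => p (some i)
  have hA : Continuous A := by fun_prop
  let U : Set (Option α → ℝ) := {p | ‖A p‖ < 1 ∧ p none < h (A p) ∧ w p ≠ 0}
  have hU : IsOpen U := (isOpen_lt hA.norm continuous_const).inter
    ((isOpen_lt (continuous_apply none) (hh.comp hA)).inter (isOpen_ne_fun hw continuous_const))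
  obtain ⟨p1, hp1, ht1⟩ : ∃ p1 ∈ U, g - δ / 2 < p1 none := by
    let g1 : α ⊕ Two → MvPolynomial (Option α) ℝ :=
      Sum.elim (fun i => X (some i)) fun o => o.elim (C e) fun _ => X none
    have hev : ∀ p, eval p (aeval g1 q1) = eval (J p) q1 := fun p => by
      rw [eval_aeval']
      congr 2
      funext i
      rcases i with i | _ | _ | o
      · simp [g1, J]
      · simp [g1, J]
      · simp [g1, J]
      · exact o.elim
    have hR : aeval g1 q1 ≠ 0 := fun h0 => hn (by
      have := hev fun o => o.elim tn an
      rw [h0, map_zero] at this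
      exact this.symm)
    have hO : IsOpen {p : Option α → ℝ | ‖A p‖ < 1 ∧ p none < h (A p) ∧ g - δ / 2 < p none} :=
      (isOpen_lt hA.norm continuous_const).inter
        ((isOpen_lt (continuous_apply none) (hh.comp hA)).inter
          (isOpen_lt continuous_const (continuous_apply none)))
    obtain ⟨a', ha', ha''⟩ : ∃ a', a' ∈ {a | g - δ / 4 < h a} ∧ a' ∈ ball (0 : α → ℝ) 1 := by
      have : a0 ∈ closure (ball (0 : α → ℝ) 1) := by
        rw [closure_ball _ one_ne_zero]; simpa using ha0
      exact mem_closure_iff.1 this _ (isOpen_lt continuous_const hh) (by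
        change g - δ / 4 < h a0; linarith)
    obtain ⟨p, ⟨h1, h2, h3⟩, h4⟩ := exists_ne_zero_of_isOpen _ hR hO
      ⟨fun o => o.elim (g - δ / 4) a', mem_ball_zero_iff.1 ha'', ha', by
        change g - δ / 2 < g - δ / 4; linarith⟩
    refine ⟨p, ⟨h1, h2, ?_⟩, h3⟩
    rw [hwe, ← hev]
    refine mul_ne_zero h4 (Finset.prod_ne_zero_iff.2 fun i _ => ?_)
    have : |p (some i)| < 1 := (norm_le_pi_norm (A p) i).trans_lt h1
    have := abs_lt.1 this
    nlinarith
  set k := dir (.inr (some none)) with hk
  set c := dir (.inr none) with hc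
  have hk0 : 0 < k := hdir _
  have hc0 : 0 < c := hdir _
  set Bs := ∑ i, dir (.inl i) with hBs
  have hBs0 : 0 ≤ Bs := Finset.sum_nonneg fun i _ => (hdir _).le
  have hdot : ∀ p, ‖A p‖ ≤ 1 → |∑ i, dir (.inl i) * p (some i)| ≤ Bs := fun p hp => by
    refine (Finset.abs_sum_le_sum_abs _ _).trans (Finset.sum_le_sum fun i _ => ?_)
    have : |p (some i)| ≤ 1 := (norm_le_pi_norm (A p) i).trans hp
    rw [abs_mul, abs_of_pos (hdir _)]
    exact mul_le_of_le_one_right (hdir _).le this
  have hw1 : 0 < w p1 ^ 2 := by have := hp1.2.2; positivity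
  set K := 2 * Bs + c / w p1 ^ 2 with hK
  have hK0 : 0 ≤ K := by positivity
  set η := min 1 (δ / (4 * (K + 1))) with hη
  have hη0 : 0 < η := by positivity
  have hη1 : η ≤ 1 := min_le_left _ _
  have hηK : η * (4 * (K + 1)) ≤ δ := (le_div_iff₀ (by positivity)).1 (min_le_right _ _)
  let Φ : (Option α → ℝ) → ℝ := fun p =>
    (1 + η * k) * p none + η * ∑ i, dir (.inl i) * p (some i) - η * c / w p ^ 2
  set L := -|Φ p1| - Bs with hL
  set κ := η * c / (|(1 + η * k) * g + η * Bs - Φ p1| + 1) with hκ
  have hκ0 : 0 < κ := by positivity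
  let S : Set (Option α → ℝ) := {p | ‖A p‖ ≤ 1 ∧ p none ≤ h (A p) ∧ L ≤ p none ∧ κ ≤ w p ^ 2}
  have hSU : S ⊆ U := fun p ⟨h1, h2, _, h4⟩ => by
    have hw0 : w p ≠ 0 := fun h0 => by rw [h0] at h4; simp at h4; linarith
    have hw0' := hw0
    rw [hwe] at hw0'
    refine ⟨(pi_norm_lt_iff one_pos).2 fun i => ?_, lt_of_le_of_ne h2 fun h5 => ?_, hw0⟩
    · have h5 : |p (some i)| ≤ 1 := (norm_le_pi_norm (A p) i).trans h1
      refine lt_of_le_of_ne h5 fun h6 => ?_
      have h7 := Finset.prod_ne_zero_iff.1 (right_ne_zero_of_mul hw0') i (Finset.mem_univ i)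
      have h6' : |p (some i)| = 1 := h6
      exact h7 (by rw [← sq_abs, h6']; ring)
    · refine left_ne_zero_of_mul hw0' ?_
      have := hgraph _ h1
      rwa [← h5] at this
  have hUS : ∀ p ∈ U, Φ p1 ≤ Φ p → p ∈ S := fun p ⟨h1, h2, h3⟩ h4 => by
    have h5 := abs_le.1 (hdot p h1.le)
    have h6 : 0 < w p ^ 2 := by positivity
    have h7 : 0 ≤ η * c / w p ^ 2 := by positivity
    have h8 : η * ∑ i, dir (.inl i) * p (some i) ≤ η * Bs := mul_le_mul_of_nonneg_left h5.2 hη0.le
    have h9 : η * Bs ≤ Bs := mul_le_of_le_one_left hBs0 hη1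
    have h10 := neg_abs_le (Φ p1)
    have h4' : Φ p1 ≤ (1 + η * k) * p none + η * ∑ i, dir (.inl i) * p (some i) -
      η * c / w p ^ 2 := h4
    refine ⟨h1.le, h2.le, ?_, ?_⟩
    · by_contra h11
      push Not at h11
      have h12 : p none < 0 := by have := abs_nonneg (Φ p1); linarith
      have : η * k * p none < 0 := mul_neg_of_pos_of_neg (by positivity) h12
      linarith
    · have h11 : (1 + η * k) * p none ≤ (1 + η * k) * g :=
        mul_le_mul_of_nonneg_left (h2.le.trans (hle _ h1.le)) (by positivity)
      have h12 := le_abs_self ((1 + η * k) * g + η * Bs - Φ p1)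
      have h13 : η * c / w p ^ 2 ≤ |(1 + η * k) * g + η * Bs - Φ p1| + 1 := by linarith
      rw [hκ, div_le_iff₀ (by positivity)]
      rw [div_le_iff₀ h6] at h13
      linarith
  have hS : IsCompact S := by
    refine Metric.isCompact_of_isClosed_isBounded ((isClosed_le hA.norm continuous_const).inter
      ((isClosed_le (continuous_apply none) (hh.comp hA)).inter
        ((isClosed_le continuous_const (continuous_apply none)).inter
          (isClosed_le continuous_const (hw.pow 2))))) ?_
    refine isBounded_iff_forall_norm_le.2 ⟨1 + |L| + |g|, fun p ⟨h1, h2, h3, _⟩ => ?_⟩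
    refine (pi_norm_le_iff_of_nonneg (by positivity)).2 ?_
    have := abs_nonneg L
    have := abs_nonneg g
    rintro (_ | i)
    · have := hle _ h1
      have := neg_abs_le L
      have := le_abs_self g
      rw [Real.norm_eq_abs, abs_le]
      constructor <;> linarith
    · have : ‖p (some i)‖ ≤ 1 := (norm_le_pi_norm (A p) i).trans h1
      linarith
  have hΦ : ContinuousOn Φ S := by
    refine ContinuousOn.sub (by fun_prop) (continuousOn_const.div (hw.pow 2).continuousOn ?_)
    intro p hp
    exact pow_ne_zero _ (hSU hp).2.2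
  obtain ⟨p, hpS, hmax⟩ := hS.exists_isMaxOn ⟨p1, hUS p1 hp1 le_rfl⟩ hΦ
  have hp1p : Φ p1 ≤ Φ p := hmax (hUS p1 hp1 le_rfl)
  have hpU := hSU hpS
  have hloc : IsLocalMax Φ p := by
    filter_upwards [hU.mem_nhds hpU] with p' hp'
    by_cases h1 : Φ p1 ≤ Φ p'
    · exact hmax (hUS p' hp' h1)
    · linarith
  have hw0 : w p ≠ 0 := hpU.2.2
  have hcrit : ∀ (o : Option α) (i : α ⊕ Two) (v : ℝ), J p i = p o →
      (∀ s, J (Function.update p o s) = Function.update (J p) i s) →
      HasDerivAt (fun s => (1 + η * k) * Function.update p o s none +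
        η * ∑ i, dir (.inl i) * Function.update p o s (some i)) v (p o) →
      -2 * η * c / w p ^ 3 * eval (J p) (pderiv i W) = v := by
    intro o i v h1 h2 h3
    have h4 := hasDerivAt_update W (J p) i
    rw [h1] at h4
    have h5 : eval (Function.update (J p) i (p o)) W = w p := by
      rw [← h1, Function.update_eq_self]
    have h6 := h3.sub ((hasDerivAt_const (p o) (η * c)).div (h4.pow 2)
      (by simpa [h5] using hw0))
    have h7 : IsLocalMax (fun s => Φ (Function.update p o s)) (p o) := by
      refine IsLocalMax.comp_continuous (f := Φ) (g := fun s => Function.update p o s) ?_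
        (continuous_const.update o continuous_id).continuousAt
      simpa using hloc
    have h8 := h7.hasDerivAt_eq_zero (by simp only [Φ, w, h2]; exact h6)
    simp only [Pi.pow_apply, h5, Nat.cast_ofNat, Nat.add_one_sub_one] at h8
    field_simp at h8 ⊢
    linarith
  refine ⟨η, hη0, by nlinarith, ev2 e (p none), (dist_ev2 _ _ _).trans_lt ?_, ?_⟩
  · have h1 : p none < g := hpU.2.1.trans_le (hle _ hpU.1.le)
    have h2 := abs_le.1 (hdot p hpU.1.le)
    have h3 := abs_le.1 (hdot p1 hp1.1.le)
    have h4 : (1 + η * k) * p1 none + η * ∑ i, dir (.inl i) * p1 (some i) - η * c / w p1 ^ 2 ≤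
      (1 + η * k) * p none + η * ∑ i, dir (.inl i) * p (some i) - η * c / w p ^ 2 := hp1p
    have h5 : 0 ≤ η * c / w p ^ 2 := by positivity
    have h6 := mul_le_mul_of_nonneg_left h2.2 hη0.le
    have h7 := mul_le_mul_of_nonneg_left h3.1 hη0.le
    have h8 : (1 + η * k) * (p1 none - p none) ≤ η * K := by
      rw [hK, mul_add, ← mul_div_assoc]; linarith
    have h9 : p1 none - p none ≤ η * K := by
      by_cases h10 : p1 none - p none ≤ 0
      · exact h10.trans (by positivity)
      · have : 0 ≤ η * k * (p1 none - p none) := mul_nonneg (by positivity) (by linarith)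
        linarith
    rw [abs_of_neg (by linarith)]
    nlinarith
  · refine Eq.trans ?_ (hQe fun o => Option.elim o (-2 * η * c / w p ^ 3) (J p))
    congr 2
    funext i
    rcases i with (i | _ | _ | o) | o
    · have := hcrit (some i) (.inl i) (η * dir (.inl i)) rfl (fun s => by
        funext j
        rcases j with j | o
        · by_cases hj : j = i <;> simp [J, hj]
        · simp [J]) (by
          have e1 : ∀ s, ∑ j, dir (.inl j) * Function.update p (some i) s (some j) =
              dir (.inl i) * s + ∑ j ∈ Finset.univ.erase i, dir (.inl j) * p (some j) := fun s => by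
            rw [← Finset.add_sum_erase _ _ (Finset.mem_univ i)]
            rw [Finset.sum_congr rfl (g := fun j => dir (.inl j) * p (some j)) fun j hj => by
              rw [Function.update_of_ne (by simpa using Finset.ne_of_mem_erase hj)]]
            simp
          simp only [e1, Function.update_of_ne (show (none : Option α) ≠ some i by simp)]
          simpa using ((((hasDerivAt_id (p (some i))).const_mul (dir (.inl i))).add_const
            (∑ j ∈ Finset.univ.erase i, dir (.inl j) * p (some j))).const_mul η).const_add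
            ((1 + η * k) * p none))
      simp [f, eval_rename, Function.comp_def, ← this]
    · simp only [f, Sum.elim_inl, Sum.elim_inr, Option.elim_none, map_mul, eval_C, eval_X, map_pow,
        eval_rename, Function.comp_def, Option.elim_some]
      change η * c = -1 / 2 * (-2 * η * c / w p ^ 3) * w p ^ 3
      field_simp
    · have := hcrit none (.inr (some none)) (1 + η * k) rfl (fun s => by
        funext j
        rcases j with j | _ | _ | o
        · simp [J]
        · simp [J]
        · simp [J]
        · exact o.elim) (by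
          simpa using ((hasDerivAt_id (p none)).const_mul (1 + η * k)).add_const
            (η * ∑ i, dir (.inl i) * p (some i)))
      simp only [f, Sum.elim_inl, Sum.elim_inr, Option.elim_none, map_mul, eval_X, map_sub,
        eval_rename, Function.comp_def, Option.elim_some, map_one]
      rw [this]
      ring
    · exact o.elim
    · simp [f, J]

end Pool.Agent.Lib.MP_1b4d2d_lc
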