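import Pool.Agent.Lib.MP_1b4d2d_lc.Defs
import Pool.Agent.Shared.PolyTime

/-!
Polynomial-time operations on terms and formulas.
-/

set_option autoImplicit false

namespace Pool.Agent.Lib.MP_1b4d2d_lc

open Pool.Agent.Shared.PolyTime

instance encTm : N487b59b3 Tm :=
  N487b59b3.ofLeftInverse Tm.code (fun l => (l.foldl parseStep ([], [])).1.head?)
    (fun t => by rw [parse_tm t [] []]; rfl)

section PT

variable {α : Type} [N487b59b3 α]

@[fun_prop] theorem pt_tcode {f : α → Tm} (hf : PT f) : PT (fun a => (f a).code) :=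
  hf.of_enc fun _ => rfl
@[fun_prop] theorem pt_fcode {f : α → Fm} (hf : PT f) : PT (fun a => (f a).code) :=
  hf.of_enc fun _ => rfl
theorem pt_of_tcode {f : α → Tm} (hf : PT (fun a => (f a).code)) : PT f := hf.of_enc fun _ => rfl
theorem pt_of_fcode {f : α → Fm} (hf : PT (fun a => (f a).code)) : PT f := hf.of_enc fun _ => rfl

@[fun_prop] theorem pt_var {f : α → ℕ} (hf : PT f) : PT (fun a => Tm.var (f a)) :=
  pt_of_tcode (by unfold Tm.code; fun_prop)
@[fun_prop] theorem pt_cst {f : α → ℤ} (hf : PT f) : PT (fun a => Tm.cst (f a)) :=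
  pt_of_tcode (by unfold Tm.code; fun_prop)
@[fun_prop] theorem pt_add {f g : α → Tm} (hf : PT f) (hg : PT g) :
    PT (fun a => Tm.add (f a) (g a)) := pt_of_tcode (by unfold Tm.code; fun_prop)
@[fun_prop] theorem pt_mul {f g : α → Tm} (hf : PT f) (hg : PT g) :
    PT (fun a => Tm.mul (f a) (g a)) := pt_of_tcode (by unfold Tm.code; fun_prop)
@[fun_prop] theorem pt_eq {f g : α → Tm} (hf : PT f) (hg : PT g) :
    PT (fun a => Fm.eq (f a) (g a)) := pt_of_fcode (by unfold Fm.code; fun_prop)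
@[fun_prop] theorem pt_lt {f g : α → Tm} (hf : PT f) (hg : PT g) :
    PT (fun a => Fm.lt (f a) (g a)) := pt_of_fcode (by unfold Fm.code; fun_prop)
@[fun_prop] theorem pt_not {f : α → Fm} (hf : PT f) :
    PT (fun a => Fm.not (f a)) := pt_of_fcode (by unfold Fm.code; fun_prop)
@[fun_prop] theorem pt_and {f g : α → Fm} (hf : PT f) (hg : PT g) :
    PT (fun a => Fm.and (f a) (g a)) := pt_of_fcode (by unfold Fm.code; fun_prop)
@[fun_prop] theorem pt_or {f g : α → Fm} (hf : PT f) (hg : PT g) :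
    PT (fun a => Fm.or (f a) (g a)) := pt_of_fcode (by unfold Fm.code; fun_prop)
@[fun_prop] theorem pt_natCast {f : α → ℕ} (hf : PT f) : PT (fun a => ((f a : ℕ) : ℤ)) :=
  (hf.pair (PT.const (0 : ℕ))).of_enc fun a => by
    change _ = N487b59b3.bitEncode (((f a : ℕ) : ℤ).toNat, (-((f a : ℕ) : ℤ)).toNat)
    simp
@[fun_prop] theorem pt_num {f : α → ℚ} (hf : PT f) : PT (fun a => (f a).num) :=
  (hf.of_enc (f := fun a => ((f a).num, (f a).den)) fun _ => rfl).fst
@[fun_prop] theorem pt_den {f : α → ℚ} (hf : PT f) : PT (fun a => (f a).den) :=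
  (hf.of_enc (f := fun a => ((f a).num, (f a).den)) fun _ => rfl).snd

end PT

theorem sz_tm (t : Tm) : sz t = sz t.code := rfl
theorem sz_fm (t : Fm) : sz t = sz t.code := rfl
theorem sz_int0 : sz (0 : ℤ) = 1 := by decide
theorem sz_int1 : sz (1 : ℤ) = 3 := by decide
theorem sz_intm1 : sz (-1 : ℤ) = 2 := by decide
theorem sz_n0 : sz (0 : ℕ) = 0 := by decide
theorem sz_n1 : sz (1 : ℕ) = 1 := by decide
theorem sz_n2 : sz (2 : ℕ) = 2 := by decide
theorem sz_n3 : sz (3 : ℕ) = 2 := by decide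
theorem sz_n7 : sz (7 : ℕ) = 3 := by decide
@[simp] theorem sz_var (i : ℕ) : sz (Tm.var i) = 4 * sz i + 7 := by
  simp [sz_tm, Tm.code, sz_n0, sz_int0]; omega
@[simp] theorem sz_cst (c : ℤ) : sz (Tm.cst c) = 2 * sz c + 9 := by
  simp [sz_tm, Tm.code, sz_n0, sz_n1]; omega
@[simp] theorem sz_add (s t : Tm) : sz (Tm.add s t) = sz s + sz t + 15 := by
  simp [sz_tm, Tm.code, sz_n0, sz_n2, sz_int0]; omega
@[simp] theorem sz_mul (s t : Tm) : sz (Tm.mul s t) = sz s + sz t + 15 := by
  simp [sz_tm, Tm.code, sz_n0, sz_n3, sz_int0]; omega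
@[simp] theorem sz_and (s t : Fm) : sz (Fm.and s t) = sz s + sz t + 19 := by
  simp [sz_fm, Fm.code, sz_n0, sz_n7, sz_int0]; omega

/-- Folds controlled by two potentials. -/
theorem foldl_pot {α β σ : Type} [N487b59b3 α] [N487b59b3 β] [N487b59b3 σ]
    {f : α → σ → β → σ} {l : α → List β} (s0 : σ)
    (hf : PT (fun p : α × σ × β => f p.1 p.2.1 p.2.2)) (hl : PT l) (P1 P2 : σ → ℕ)
    {g : α → ℕ} (hg : PB g) (h1 : ∀ a s, ∀ x ∈ l a, P1 (f a s x) ≤ P1 s + g a)
    (h2 : ∀ a s, ∀ x ∈ l a, P2 (f a s x) ≤ P2 s + P1 s + g a)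
    (hsz : ∀ s, sz s ≤ 4 * (P1 s + P2 s) + 1) (h0 : P1 s0 = 0) (h0' : P2 s0 = 0) :
    PT (fun a => (l a).foldl (f a) s0) := by
  refine PT.foldl hf hl (PT.const s0) (B := fun a => 4 * ((l a).length * g a +
    (l a).length * ((l a).length * g a + g a)) + 1) (by fun_prop) fun a i => ?_
  have key : ∀ (m : List β) (s : σ), (∀ x ∈ m, x ∈ l a) →
      P1 (m.foldl (f a) s) ≤ P1 s + m.length * g a ∧
      P2 (m.foldl (f a) s) ≤ P2 s + m.length * (P1 s + m.length * g a + g a) := by
    intro m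
    induction m with
    | nil => intro s _; simp
    | cons x m ih =>
      intro s hm
      obtain ⟨e1, e2⟩ := ih (f a s x) (fun y hy => hm y (by simp [hy]))
      have e3 := h1 a s x (hm x (by simp))
      have e4 := h2 a s x (hm x (by simp))
      simp only [List.foldl_cons, List.length_cons]
      have e5 := Nat.mul_le_mul_left m.length e3
      constructor <;> nlinarith
  obtain ⟨e1, e2⟩ := key ((l a).take i) s0 fun x hx => List.mem_of_mem_take hx
  have e3 : ((l a).take i).length ≤ (l a).length := by simp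
  have e4 := Nat.mul_le_mul_right (g a) e3
  have e5 := Nat.mul_le_mul e3 (Nat.add_le_add_right e4 (g a))
  have := hsz (((l a).take i).foldl (f a) s0)
  rw [h0] at e1 e2
  rw [h0', zero_add, zero_add] at e2
  omega

/-! Relocation of variables. -/

/-- `x_i` becomes `x_(off+i)` for `i < n` and `0` otherwise. -/
def Tm.sub (off n : ℕ) : Tm → Tm
  | var i => if i < n then var (off + i) else cst 0
  | cst c => cst c
  | add s t => add (s.sub off n) (t.sub off n)
  | mul s t => mul (s.sub off n) (t.sub off n)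

/-- `x_i` becomes `x_(off+i)` for `i < n` and `0` otherwise. -/
def Fm.sub (off n : ℕ) : Fm → Fm
  | eq s t => eq (s.sub off n) (t.sub off n)
  | lt s t => lt (s.sub off n) (t.sub off n)
  | not φ => not (φ.sub off n)
  | and φ ψ => and (φ.sub off n) (ψ.sub off n)
  | or φ ψ => or (φ.sub off n) (ψ.sub off n)

/-- The relocation on symbols. -/
def subTok (off n : ℕ) (k : Tok) : Tok :=
  if k.1 = 0 then (if k.2.1 < n then (0, off + k.2.1, 0) else (1, 0, 0)) else k

theorem Tm.code_sub (off n : ℕ) (t : Tm) : (t.sub off n).code = t.code.map (subTok off n) := by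
  induction t with
  | var i => by_cases h : i < n <;> simp [Tm.sub, Tm.code, subTok, h]
  | cst c => simp [Tm.sub, Tm.code, subTok]
  | add s t hs ht => simp [Tm.sub, Tm.code, subTok, hs, ht]
  | mul s t hs ht => simp [Tm.sub, Tm.code, subTok, hs, ht]

theorem Fm.code_sub (off n : ℕ) (φ : Fm) : (φ.sub off n).code = φ.code.map (subTok off n) := by
  induction φ with
  | eq s t => simp [Fm.sub, Fm.code, subTok, Tm.code_sub]
  | lt s t => simp [Fm.sub, Fm.code, subTok, Tm.code_sub]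
  | not φ h => simp [Fm.sub, Fm.code, subTok, h]
  | and φ ψ h h' => simp [Fm.sub, Fm.code, subTok, h, h']
  | or φ ψ h h' => simp [Fm.sub, Fm.code, subTok, h, h']

@[fun_prop] theorem pt_sub {α : Type} [N487b59b3 α] {o n : α → ℕ} {f : α → Fm} (ho : PT o)
    (hn : PT n) (hf : PT f) : PT (fun a => (f a).sub (o a) (n a)) :=
  pt_of_fcode (by simp only [Fm.code_sub]; unfold subTok; fun_prop)

theorem Tm.eval_sub (off n : ℕ) (ρ : ℕ → ℝ) (t : Tm) :
    (t.sub off n).eval ρ = t.eval fun i => if i < n then ρ (off + i) else 0 := by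
  induction t with
  | var i => by_cases h : i < n <;> simp [Tm.sub, Tm.eval, h]
  | cst c => rfl
  | add s t hs ht => simp [Tm.sub, Tm.eval, hs, ht]
  | mul s t hs ht => simp [Tm.sub, Tm.eval, hs, ht]

theorem Fm.holds_sub (off n : ℕ) (ρ : ℕ → ℝ) (φ : Fm) :
    (φ.sub off n).Holds ρ ↔ φ.Holds fun i => if i < n then ρ (off + i) else 0 := by
  induction φ with
  | eq s t => simp [Fm.sub, Fm.Holds, Tm.eval_sub]
  | lt s t => simp [Fm.sub, Fm.Holds, Tm.eval_sub]
  | not φ h => simp [Fm.sub, Fm.Holds, h]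
  | and φ ψ h h' => simp [Fm.sub, Fm.Holds, h, h']
  | or φ ψ h h' => simp [Fm.sub, Fm.Holds, h, h']

theorem Tm.below_sub (off n : ℕ) (t : Tm) : (t.sub off n).Below (off + n) := by
  induction t with
  | var i => by_cases h : i < n <;> simp [Tm.sub, Tm.Below, h]
  | cst c => trivial
  | add s t hs ht => exact ⟨hs, ht⟩
  | mul s t hs ht => exact ⟨hs, ht⟩

theorem Fm.below_sub (off n : ℕ) (φ : Fm) : (φ.sub off n).Below (off + n) := by
  induction φ with
  | eq s t => exact ⟨s.below_sub _ _, t.below_sub _ _⟩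
  | lt s t => exact ⟨s.below_sub _ _, t.below_sub _ _⟩
  | not φ h => exact h
  | and φ ψ h h' => exact ⟨h, h'⟩
  | or φ ψ h h' => exact ⟨h, h'⟩

theorem Tm.Below.mono {m n : ℕ} (h : m ≤ n) {t : Tm} (ht : t.Below m) : t.Below n := by
  induction t with
  | var i => exact lt_of_lt_of_le ht h
  | cst c => trivial
  | add s t hs ht' => exact ⟨hs ht.1, ht' ht.2⟩
  | mul s t hs ht' => exact ⟨hs ht.1, ht' ht.2⟩

theorem Tm.eval_congr {n : ℕ} {ρ ρ' : ℕ → ℝ} (h : ∀ i < n, ρ i = ρ' i) {t : Tm} (ht : t.Below n) :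
    t.eval ρ = t.eval ρ' := by
  induction t with
  | var i => exact h i ht
  | cst c => rfl
  | add s t hs ht' => simp only [Tm.eval, hs ht.1, ht' ht.2]
  | mul s t hs ht' => simp only [Tm.eval, hs ht.1, ht' ht.2]

theorem Fm.holds_congr {n : ℕ} {ρ ρ' : ℕ → ℝ} (h : ∀ i < n, ρ i = ρ' i) {φ : Fm}
    (hφ : φ.Below n) : φ.Holds ρ ↔ φ.Holds ρ' := by
  induction φ with
  | eq s t => simp only [Fm.Holds, Tm.eval_congr h hφ.1, Tm.eval_congr h hφ.2]
  | lt s t => simp only [Fm.Holds, Tm.eval_congr h hφ.1, Tm.eval_congr h hφ.2]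
  | not φ ih => simp only [Fm.Holds, ih hφ]
  | and φ ψ ih ih' => simp only [Fm.Holds, ih hφ.1, ih' hφ.2]
  | or φ ψ ih ih' => simp only [Fm.Holds, ih hφ.1, ih' hφ.2]

theorem Fm.holds_sub_ext {n : ℕ} (v : Fin n → ℝ) (φ : Fm) :
    (φ.sub 0 n).Holds (ext v) ↔ φ.Holds (ext v) := by
  rw [Fm.holds_sub]
  refine iff_of_eq (congrArg (φ.Holds ·) (funext fun i => ?_))
  by_cases h : i < n <;> simp [ext, h]

/-! Sums and conjunctions. -/

/-- Sum of a list of terms. -/
def sumTm (l : List Tm) : Tm := l.foldr Tm.add (.cst 0)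

/-- Conjunction of a list of formulas. -/
def conj (l : List Fm) : Fm := l.foldr Fm.and (.eq (.cst 0) (.cst 0))

@[fun_prop] theorem pt_sumTm {α : Type} [N487b59b3 α] {l : α → List Tm} (hl : PT l) :
    PT (fun a => sumTm (l a)) :=
  PT.foldr_grow (f := fun _ x s => Tm.add x s) (by fun_prop) hl (PT.const _)
    (g := fun a => sz (l a) + 15) (by fun_prop) fun a s x hx => by
      have := sz_mem hx; simp; omega

@[fun_prop] theorem pt_conj {α : Type} [N487b59b3 α] {l : α → List Fm} (hl : PT l) :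
    PT (fun a => conj (l a)) :=
  PT.foldr_grow (f := fun _ x s => Fm.and x s) (by fun_prop) hl (PT.const _)
    (g := fun a => sz (l a) + 19) (by fun_prop) fun a s x hx => by
      have := sz_mem hx; simp; omega

theorem eval_sumTm (ρ : ℕ → ℝ) (n : ℕ) (f : ℕ → Tm) :
    (sumTm ((List.range n).map f)).eval ρ = ∑ i ∈ Finset.range n, (f i).eval ρ := by
  have : ∀ l : List Tm, (sumTm l).eval ρ = (l.map (Tm.eval ρ)).sum := fun l => by
    induction l with
    | nil => simp [sumTm, Tm.eval]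
    | cons t l ih => simp only [sumTm, List.foldr_cons, Tm.eval, List.map_cons, List.sum_cons] at *; rw [ih]
  rw [this, List.map_map, ← List.sum_toFinset _ List.nodup_range]
  congr 1
  ext i
  simp

theorem holds_conj (ρ : ℕ → ℝ) (n : ℕ) (f : ℕ → Fm) :
    (conj ((List.range n).map f)).Holds ρ ↔ ∀ i < n, (f i).Holds ρ := by
  have : ∀ l : List Fm, (conj l).Holds ρ ↔ ∀ φ ∈ l, φ.Holds ρ := fun l => by
    induction l with
    | nil => simp [conj, Fm.Holds]
    | cons t l ih => simp only [conj, List.foldr_cons, Fm.Holds, List.forall_mem_cons] at *; rw [ih]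
  rw [this]
  simp

/-- Difference. -/
def dif (s t : Tm) : Tm := .add s (.mul (.cst (-1)) t)

/-- Square. -/
def sqr (t : Tm) : Tm := .mul t t

/-- Weak inequality. -/
def Fm.le (s t : Tm) : Fm := .not (.lt t s)

@[simp] theorem eval_dif (ρ : ℕ → ℝ) (s t : Tm) : (dif s t).eval ρ = s.eval ρ - t.eval ρ := by
  simp [dif, Tm.eval]; ring
@[simp] theorem eval_sqr (ρ : ℕ → ℝ) (t : Tm) : (sqr t).eval ρ = t.eval ρ ^ 2 := by
  simp [sqr, Tm.eval]; ring
@[simp] theorem holds_le (ρ : ℕ → ℝ) (s t : Tm) : (Fm.le s t).Holds ρ ↔ s.eval ρ ≤ t.eval ρ := by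
  simp [Fm.le, Fm.Holds]

@[fun_prop] theorem pt_dif {α : Type} [N487b59b3 α] {f g : α → Tm} (hf : PT f) (hg : PT g) :
    PT (fun a => dif (f a) (g a)) := by unfold dif; fun_prop
@[fun_prop] theorem pt_sqr {α : Type} [N487b59b3 α] {f : α → Tm} (hf : PT f) :
    PT (fun a => sqr (f a)) := by unfold sqr; fun_prop
@[fun_prop] theorem pt_le {α : Type} [N487b59b3 α] {f g : α → Tm} (hf : PT f) (hg : PT g) :
    PT (fun a => Fm.le (f a) (g a)) := by unfold Fm.le; fun_prop

end Pool.Agent.Lib.MP_1b4d2d_lc
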